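import Mathlib

/- Robinson polynomials: the algebraic identities. -/

set_option autoImplicit false
open Polynomial Finset

namespace Pool.Agent.P.MP_e3b298_an

noncomputable def pc (a : ℝ) (k : ℕ) : ℝ := (ascPochhammer ℝ k).eval a

lemma pc_zero (a : ℝ) : pc a 0 = 1 := by simp [pc]

lemma pc_succ (a : ℝ) (k : ℕ) : pc a (k + 1) = pc a k * (a + k) := by
  simp [pc, ascPochhammer_succ_eval]

lemma pc_succ' (a : ℝ) (k : ℕ) : pc a (k + 1) = a * pc (a + 1) k := by
  simp [pc, ascPochhammer_succ_left, eval_comp]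

lemma pc_pos {a : ℝ} (h : 0 < a) (k : ℕ) : 0 < pc a k := by
  induction k with
  | zero => simp [pc_zero]
  | succ k ih => rw [pc_succ]; positivity

lemma pc_nonneg {a : ℝ} (h : 0 ≤ a) (k : ℕ) : 0 ≤ pc a k := by
  induction k with
  | zero => simp [pc_zero]
  | succ k ih => rw [pc_succ]; positivity

lemma pc_mono {a b : ℝ} (h : 0 ≤ a) (hab : a ≤ b) (k : ℕ) : pc a k ≤ pc b k := by
  induction k with
  | zero => simp [pc_zero]
  | succ k ih =>
    rw [pc_succ, pc_succ]
    have := pc_nonneg (h.trans hab) k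
    have h2 : (0 : ℝ) ≤ a + k := by positivity
    exact mul_le_mul ih (by linarith) h2 this

lemma continuous_pc (k : ℕ) : Continuous fun a => pc a k := by
  unfold pc; fun_prop

/-- the hypergeometric polynomial F(-n, g; c; -z) -/
noncomputable def Ap (n : ℕ) (g c : ℝ) : ℝ[X] :=
  ∑ k ∈ range (n + 1), monomial k ((n.choose k : ℝ) * pc g k / pc c k)

lemma coeff_Ap (n : ℕ) (g c : ℝ) (k : ℕ) :
    (Ap n g c).coeff k = (n.choose k : ℝ) * pc g k / pc c k := by
  unfold Ap
  rw [finsetSum_coeff]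
  simp only [coeff_monomial]
  rw [Finset.sum_ite_eq' (range (n + 1)) k]
  split_ifs with h
  · rfl
  · have : n < k := by simpa [Nat.lt_succ_iff] using h
    simp [Nat.choose_eq_zero_of_lt this]

lemma Ap_zero (g c : ℝ) : Ap 0 g c = 1 := by
  simp [Ap, pc_zero]

lemma Ap_coeff_nonneg (n : ℕ) {g c : ℝ} (hg : 0 ≤ g) (hc : 0 < c) (k : ℕ) :
    0 ≤ (Ap n g c).coeff k := by
  rw [coeff_Ap]
  have := pc_nonneg hg k
  have := pc_pos hc k
  positivity

lemma choose_id (m k : ℕ) :
    ((m + 1).choose (k + 1) : ℝ) * (k + 1) = (m + 1) * (m.choose k : ℝ) := by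
  have := Nat.add_one_mul_choose_eq m k
  exact_mod_cast this.symm

lemma choose_id' (m k : ℕ) :
    ((m + 1).choose k : ℝ) * ((m + 1 : ℝ) - k) = (m + 1) * (m.choose k : ℝ) := by
  rcases le_or_gt k (m + 1) with h | h
  · have h1 := Nat.choose_mul_succ_eq m k
    have h2 : ((m.choose k * (m + 1) : ℕ) : ℝ) = (((m + 1).choose k * (m + 1 - k) : ℕ) : ℝ) := by
      rw [h1]
    push_cast [Nat.cast_sub h] at h2
    linarith
  · rw [Nat.choose_eq_zero_of_lt h, Nat.choose_eq_zero_of_lt (by omega)]
    simp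

/-- first contiguous relation -/
lemma id1 (m : ℕ) (g : ℝ) {c : ℝ} (hc : 0 < c) :
    (1 + X) * derivative (Ap (m + 1) g c) =
      C ((m : ℝ) + 1) * (Ap (m + 1) g c - C ((c - g) / c) * Ap m g (c + 1)) := by
  ext k
  have hk := (pc_pos hc k).ne'
  have hk1 := (pc_pos (show 0 < c + 1 by linarith) k).ne'
  have hck : c + k ≠ 0 := by positivity
  have e1 : pc (c + 1) k = pc c k * (c + k) / c := by
    rw [← pc_succ, pc_succ']; field_simp
  have hX : (X * derivative (Ap (m + 1) g c)).coeff k = k * (Ap (m + 1) g c).coeff k := by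
    cases k with
    | zero => simp
    | succ k => rw [coeff_X_mul, coeff_derivative]; push_cast; ring
  rw [add_mul, one_mul, coeff_add, hX, coeff_derivative, coeff_C_mul, coeff_sub, coeff_C_mul]
  simp only [coeff_Ap]
  rw [e1, pc_succ g k, pc_succ c k]
  have a1 := choose_id m k
  have a2 := choose_id' m k
  field_simp
  linear_combination (pc g k * (g + k)) * a1 - (pc g k * (c + k)) * a2

/-- second contiguous relation -/
lemma id2 (m : ℕ) (g : ℝ) {c : ℝ} (hc : 0 < c) :
    X * (1 + X) * derivative (Ap m g (c + 1)) =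
      C c * Ap (m + 1) g c - (C c + C g * X) * Ap m g (c + 1) := by
  have hX : ∀ k, (X * derivative (Ap m g (c + 1))).coeff k = k * (Ap m g (c + 1)).coeff k := by
    intro k
    cases k with
    | zero => simp
    | succ k => rw [coeff_X_mul, coeff_derivative]; push_cast; ring
  have e : X * (1 + X) * derivative (Ap m g (c + 1)) =
      X * derivative (Ap m g (c + 1)) + X * (X * derivative (Ap m g (c + 1))) := by ring
  have e' : (C c + C g * X) * Ap m g (c + 1) =
      C c * Ap m g (c + 1) + C g * (X * Ap m g (c + 1)) := by ring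
  rw [e, e']
  ext k
  cases k with
  | zero => simp [coeff_Ap, pc_zero]
  | succ k =>
    rw [coeff_add, hX, coeff_X_mul, hX, coeff_sub, coeff_add, coeff_C_mul, coeff_C_mul,
      coeff_C_mul, coeff_X_mul]
    simp only [coeff_Ap]
    have hk1 := (pc_pos (show 0 < c + 1 by linarith) k).ne'
    have hck : c + 1 + k ≠ 0 := by positivity
    rw [pc_succ' c k, pc_succ (c + 1) k, pc_succ g k, Nat.choose_succ_succ]
    push_cast
    field_simp
    ring

lemma Ap_neg_one (n : ℕ) (g : ℝ) : ∀ {c : ℝ}, 0 < c →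
    (Ap n g c).eval (-1) = pc (c - g) n / pc c n := by
  induction n with
  | zero => intro c _; simp [Ap_zero, pc_zero]
  | succ m ih =>
    intro c hc
    have h := congrArg (eval (-1)) (id1 m g hc)
    simp only [eval_mul, eval_add, eval_one, eval_X, eval_C, eval_sub] at h
    have hm : (m : ℝ) + 1 ≠ 0 := by positivity
    have h2 : (Ap (m + 1) g c).eval (-1) = (c - g) / c * (Ap m g (c + 1)).eval (-1) := by
      have : ((m : ℝ) + 1) * ((Ap (m + 1) g c).eval (-1) -
          (c - g) / c * (Ap m g (c + 1)).eval (-1)) = 0 := by rw [← h]; ring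
      rcases mul_eq_zero.1 this with h0 | h0
      · exact absurd h0 hm
      · linarith
    rw [h2, ih (show 0 < c + 1 by linarith), pc_succ', pc_succ']
    have : c + 1 - g = c - g + 1 := by ring
    rw [this]
    have := (pc_pos (show 0 < c + 1 by linarith) m).ne'
    field_simp

lemma eval_one_nonneg (p : ℝ[X]) (h : ∀ k, 0 ≤ p.coeff k) : 0 ≤ p.eval 1 := by
  rw [eval_eq_sum_range]
  exact sum_nonneg fun i _ => by simpa using h i

lemma at_one (m : ℕ) {g c : ℝ} (hg : 0 ≤ g) (hc : 0 < c) (hs : 0 ≤ c - g) :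
    ((c - g) / c * (Ap m g (c + 1)).eval 1) ^ 2 ≤ ((Ap (m + 1) g c).eval 1) ^ 2 := by
  have h := congrArg (eval 1) (id1 m g hc)
  simp only [eval_mul, eval_add, eval_one, eval_X, eval_C, eval_sub] at h
  have h1 : 0 ≤ (derivative (Ap (m + 1) g c)).eval 1 := by
    apply eval_one_nonneg
    intro k
    rw [coeff_derivative]
    have := Ap_coeff_nonneg (m + 1) hg hc (k + 1)
    positivity
  have h2 : 0 ≤ (Ap m g (c + 1)).eval 1 :=
    eval_one_nonneg _ (Ap_coeff_nonneg m hg (by linarith))
  have h3 : 0 ≤ (c - g) / c * (Ap m g (c + 1)).eval 1 := by positivity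
  have hm : (0 : ℝ) < m + 1 := by positivity
  have h4 : 0 ≤ (Ap (m + 1) g c).eval 1 - (c - g) / c * (Ap m g (c + 1)).eval 1 := by
    by_contra hn
    push Not at hn
    nlinarith
  exact pow_le_pow_left₀ h3 (by linarith) 2

end Pool.Agent.P.MP_e3b298_an
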