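import Pool.Agent.P.MP_e3b298_an.Alg

/- Robinson polynomials: the inequalities on the unit circle. -/

set_option autoImplicit false
open Polynomial Finset Complex

namespace Pool.Agent.P.MP_e3b298_an

noncomputable def ww (t : ℝ) : ℂ := Complex.exp (t * I)

noncomputable def ev (p : ℝ[X]) (t : ℝ) : ℂ := aeval (ww t ^ 2) p

noncomputable def NN (p : ℝ[X]) (t : ℝ) : ℝ := normSq (ev p t)

noncomputable def dN (p : ℝ[X]) (t : ℝ) : ℝ :=
  2 * ((starRingEnd ℂ) (ev p t) * (ev (derivative p) t * (ww t ^ 2 * (2 * I)))).re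

lemma ww_eq (t : ℝ) : ww t = (Real.cos t : ℂ) + (Real.sin t : ℂ) * I := by
  simp [ww, Complex.exp_mul_I]

lemma hasDerivAt_ww (t : ℝ) : HasDerivAt ww (ww t * I) t := by
  have h : HasDerivAt (fun s : ℝ => (s : ℂ) * I) (1 * I) t :=
    (Complex.ofRealCLM.hasDerivAt (x := t)).mul_const I
  have h2 := h.cexp
  rw [one_mul] at h2
  exact h2

lemma hasDerivAt_ev (p : ℝ[X]) (t : ℝ) :
    HasDerivAt (ev p) (ev (derivative p) t * (ww t ^ 2 * (2 * I))) t := by
  have h1 : HasDerivAt (fun s => ww s ^ 2) (ww t ^ 2 * (2 * I)) t := by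
    have := (hasDerivAt_ww t).mul (hasDerivAt_ww t)
    have e : (fun s => ww s ^ 2) = ww * ww := by funext s; simp [sq]
    have e2 : ww t ^ 2 * (2 * I) = ww t * I * ww t + ww t * (ww t * I) := by ring
    rw [e, e2]
    exact this
  have h2 := p.hasDerivAt_aeval (ww t ^ 2)
  exact h2.comp_of_eq t h1 rfl

lemma hasDerivAt_NN (p : ℝ[X]) (t : ℝ) : HasDerivAt (NN p) (dN p t) t := by
  have h := hasDerivAt_ev p t
  have hr : HasDerivAt (fun s => (ev p s).re)
      (ev (derivative p) t * (ww t ^ 2 * (2 * I))).re t :=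
    Complex.reCLM.hasFDerivAt.comp_hasDerivAt t h
  have hi : HasDerivAt (fun s => (ev p s).im)
      (ev (derivative p) t * (ww t ^ 2 * (2 * I))).im t :=
    Complex.imCLM.hasFDerivAt.comp_hasDerivAt t h
  have := (hr.mul hr).add (hi.mul hi)
  have e : NN p = fun s => (ev p s).re * (ev p s).re + (ev p s).im * (ev p s).im := by
    funext s; simp [NN, normSq_apply]
  have e2 : dN p t = (ev (derivative p) t * (ww t ^ 2 * (2 * I))).re * (ev p t).re +
      (ev p t).re * (ev (derivative p) t * (ww t ^ 2 * (2 * I))).re +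
      ((ev (derivative p) t * (ww t ^ 2 * (2 * I))).im * (ev p t).im +
      (ev p t).im * (ev (derivative p) t * (ww t ^ 2 * (2 * I))).im) := by
    unfold dN
    generalize ev (derivative p) t * (ww t ^ 2 * (2 * I)) = u
    simp only [mul_re, conj_re, conj_im]
    ring
  rw [e, e2]
  exact this

lemma continuous_NN (p : ℝ[X]) : Continuous (NN p) :=
  continuous_iff_continuousAt.2 fun t => (hasDerivAt_NN p t).continuousAt

lemma key_alg (a d a' d' : ℂ) (C S n c g : ℝ) (hCS : C ^ 2 + S ^ 2 = 1)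
    (h1 : (1 + (C + S * I) ^ 2) * a' = n * (a - (c - g) * d))
    (h2 : (C + S * I) ^ 2 * (1 + (C + S * I) ^ 2) * d' = a - (c + g * (C + S * I) ^ 2) * d) :
    C * (2 * ((starRingEnd ℂ) a * (a' * ((C + S * I) ^ 2 * (2 * I)))).re
      - n * (c - g) * (2 * ((starRingEnd ℂ) d * (d' * ((C + S * I) ^ 2 * (2 * I)))).re)) =
      -2 * n * S * (normSq a - (c - g) ^ 2 * normSq d) := by
  have hc : (C : ℂ) ^ 2 + (S : ℂ) ^ 2 = 1 := by exact_mod_cast hCS
  set w : ℂ := C + S * I with hw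
  have hw1 : w * (C - S * I) = 1 := by
    rw [hw]; linear_combination hc - (S : ℂ) ^ 2 * I_sq
  have hz : 1 + w ^ 2 = 2 * C * w := by
    rw [hw]; linear_combination (-1 : ℂ) * hc + (S : ℂ) ^ 2 * I_sq
  have e1 : (C : ℂ) * (a' * (w ^ 2 * (2 * I))) = I * n * (a - (c - g) * d) * w := by
    rw [hz] at h1
    linear_combination (I * w) * h1
  have e2 : (C : ℂ) * (d' * (w ^ 2 * (2 * I))) =
      I * (a * (C - S * I) - (c * (C - S * I) + g * w) * d) := by
    rw [hz] at h2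
    linear_combination (I * (C - S * I)) * h2 - (2 * I * C * d' * w ^ 2 + I * g * w * d) * hw1
  have r1 : C * ((starRingEnd ℂ) a * (a' * (w ^ 2 * (2 * I)))).re =
      ((starRingEnd ℂ) a * (I * n * (a - (c - g) * d) * w)).re := by
    rw [← e1, ← re_ofReal_mul]; congr 1; ring
  have r2 : C * ((starRingEnd ℂ) d * (d' * (w ^ 2 * (2 * I)))).re =
      ((starRingEnd ℂ) d * (I * (a * (C - S * I) - (c * (C - S * I) + g * w) * d))).re := by
    rw [← e2, ← re_ofReal_mul]; congr 1; ring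
  have : C * (2 * ((starRingEnd ℂ) a * (a' * (w ^ 2 * (2 * I)))).re
      - n * (c - g) * (2 * ((starRingEnd ℂ) d * (d' * (w ^ 2 * (2 * I)))).re)) =
      2 * (C * ((starRingEnd ℂ) a * (a' * (w ^ 2 * (2 * I)))).re) -
      2 * n * (c - g) * (C * ((starRingEnd ℂ) d * (d' * (w ^ 2 * (2 * I)))).re) := by ring
  rw [this, r1, r2, hw]
  simp [normSq_apply]
  ring

/-- the companion polynomial -/
noncomputable def Ep (m : ℕ) (g c : ℝ) : ℝ[X] := C c⁻¹ * Ap m g (c + 1)

lemma id1' (m : ℕ) (g : ℝ) {c : ℝ} (hc : 0 < c) (z : ℂ) :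
    (1 + z) * aeval z (derivative (Ap (m + 1) g c)) =
      ((m : ℝ) + 1 : ℝ) * (aeval z (Ap (m + 1) g c) - ((c : ℂ) - g) * aeval z (Ep m g c)) := by
  have h := congrArg (aeval z) (id1 m g hc)
  simp only [map_mul, map_add, map_one, aeval_X, aeval_C, map_sub, coe_algebraMap] at h
  rw [h]
  simp only [Ep, map_mul, aeval_C, coe_algebraMap]
  push_cast
  ring

lemma id2' (m : ℕ) (g : ℝ) {c : ℝ} (hc : 0 < c) (z : ℂ) :
    z * (1 + z) * aeval z (derivative (Ep m g c)) =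
      aeval z (Ap (m + 1) g c) - ((c : ℂ) + g * z) * aeval z (Ep m g c) := by
  have h := congrArg (aeval z) (id2 m g hc)
  simp only [map_mul, map_add, map_one, aeval_X, aeval_C, map_sub, coe_algebraMap] at h
  simp only [Ep, derivative_C_mul, map_mul, aeval_C, coe_algebraMap]
  have hc' : (c : ℂ) ≠ 0 := by exact_mod_cast hc.ne'
  push_cast
  field_simp
  linear_combination h

lemma key (m : ℕ) (g : ℝ) {c : ℝ} (hc : 0 < c) (t : ℝ) :
    Real.cos t * (dN (Ap (m + 1) g c) t - ((m : ℝ) + 1) * (c - g) * dN (Ep m g c) t) =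
      -2 * ((m : ℝ) + 1) * Real.sin t *
        (NN (Ap (m + 1) g c) t - (c - g) ^ 2 * NN (Ep m g c) t) := by
  have h1 := id1' m g hc (ww t ^ 2)
  have h2 := id2' m g hc (ww t ^ 2)
  unfold dN NN ev
  rw [ww_eq] at h1 h2 ⊢
  exact key_alg _ _ _ _ _ _ _ _ _ (Real.cos_sq_add_sin_sq t) h1 h2

lemma dN_Ep (m : ℕ) (g c t : ℝ) : dN (Ep m g c) t = c⁻¹ ^ 2 * dN (Ap m g (c + 1)) t := by
  simp only [dN, Ep, ev, derivative_C_mul, map_mul, aeval_C, coe_algebraMap, conj_ofReal]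
  generalize aeval (ww t ^ 2) (derivative (Ap m g (c + 1))) = u
  generalize (starRingEnd ℂ) (aeval (ww t ^ 2) (Ap m g (c + 1))) = v
  generalize ww t ^ 2 * (2 * I) = y
  have : ((c⁻¹ : ℝ) : ℂ) * v * (((c⁻¹ : ℝ) : ℂ) * u * y) =
      ((c⁻¹ ^ 2 : ℝ) : ℂ) * (v * (u * y)) := by push_cast; ring
  rw [this, re_ofReal_mul]
  ring

lemma NN_zero (p : ℝ[X]) : NN p 0 = (p.eval 1) ^ 2 := by
  have : ev p 0 = ((p.eval 1 : ℝ) : ℂ) := by
    have h := aeval_algebraMap_apply ℂ (1 : ℝ) p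
    simpa [ev, ww] using h
  rw [NN, this, normSq_ofReal, sq]

lemma step (m : ℕ) {g c : ℝ} (hg : 0 ≤ g) (hs : (m : ℝ) + 1 ≤ c - g)
    (ih : ∀ t ∈ Set.Ico 0 (Real.pi / 2), dN (Ap m g (c + 1)) t ≤ 0) :
    ∀ t ∈ Set.Ico 0 (Real.pi / 2),
      (c - g) ^ 2 * NN (Ep m g c) t ≤ NN (Ap (m + 1) g c) t ∧ dN (Ap (m + 1) g c) t ≤ 0 := by
  have hm : (0 : ℝ) < m + 1 := by positivity
  have hc : 0 < c := by linarith
  have hE : ∀ t ∈ Set.Ico 0 (Real.pi / 2), dN (Ep m g c) t ≤ 0 := by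
    intro t ht
    rw [dN_Ep]
    exact mul_nonpos_of_nonneg_of_nonpos (sq_nonneg _) (ih t ht)
  have hcos : ∀ t ∈ Set.Ico 0 (Real.pi / 2), 0 < Real.cos t := fun t ht =>
    Real.cos_pos_of_mem_Ioo ⟨by linarith [ht.1, Real.pi_pos], ht.2⟩
  have hsin : ∀ t ∈ Set.Ico 0 (Real.pi / 2), 0 ≤ Real.sin t := fun t ht =>
    Real.sin_nonneg_of_nonneg_of_le_pi ht.1 (by linarith [ht.2, Real.pi_pos])
  set G : ℝ → ℝ := fun t => NN (Ap (m + 1) g c) t - (c - g) ^ 2 * NN (Ep m g c) t with hG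
  have dG : ∀ t, HasDerivAt G (dN (Ap (m + 1) g c) t - (c - g) ^ 2 * dN (Ep m g c) t) t :=
    fun t => (hasDerivAt_NN _ t).sub ((hasDerivAt_NN _ t).const_mul _)
  have dH : ∀ t ∈ Set.Ico 0 (Real.pi / 2), HasDerivAt (fun t => G t / Real.cos t ^ (2 * m + 2))
      (((dN (Ap (m + 1) g c) t - (c - g) ^ 2 * dN (Ep m g c) t) * Real.cos t ^ (2 * m + 2) -
        G t * (((2 * m + 2 : ℕ) : ℝ) * Real.cos t ^ (2 * m + 2 - 1) * (-Real.sin t))) /
          (Real.cos t ^ (2 * m + 2)) ^ 2) t := fun t ht =>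
    (dG t).div ((Real.hasDerivAt_cos t).pow (2 * m + 2)) (pow_pos (hcos t ht) _).ne'
  have mono : MonotoneOn (fun t => G t / Real.cos t ^ (2 * m + 2)) (Set.Ico 0 (Real.pi / 2)) := by
    apply monotoneOn_of_deriv_nonneg (convex_Ico _ _)
    · exact fun t ht => (dH t ht).continuousAt.continuousWithinAt
    · exact fun t ht => (dH t (interior_subset ht)).differentiableAt.differentiableWithinAt
    · intro t ht
      have ht' := interior_subset ht
      rw [(dH t ht').deriv]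
      apply div_nonneg _ (sq_nonneg _)
      have k := key m g hc t
      have e : 2 * m + 2 - 1 = 2 * m + 1 := by omega
      rw [e]
      have hp : 0 < Real.cos t ^ (2 * m + 1) := pow_pos (hcos t ht') _
      have h3 : 0 ≤ Real.cos t * ((c - g) * (c - g - (m + 1)) * (-dN (Ep m g c) t)) := by
        have := hE t ht'
        have := hcos t ht'
        have : 0 ≤ c - g - (m + 1) := by linarith
        have : 0 ≤ c - g := by linarith
        have : 0 ≤ -dN (Ep m g c) t := by linarith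
        positivity
      have e2 : (dN (Ap (m + 1) g c) t - (c - g) ^ 2 * dN (Ep m g c) t) *
          Real.cos t ^ (2 * m + 2) -
          G t * (((2 * m + 2 : ℕ) : ℝ) * Real.cos t ^ (2 * m + 1) * (-Real.sin t)) =
          Real.cos t ^ (2 * m + 1) *
            (Real.cos t * ((c - g) * (c - g - (m + 1)) * (-dN (Ep m g c) t))) := by
        simp only [hG]
        push_cast
        linear_combination (Real.cos t ^ (2 * m + 1)) * k
      rw [e2]
      positivity
  have G0 : 0 ≤ G 0 := by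
    have := at_one m hg hc (by linarith)
    simp only [hG, NN_zero, Ep, eval_mul, eval_C]
    have e : (c - g) ^ 2 * (c⁻¹ * eval 1 (Ap m g (c + 1))) ^ 2 =
        ((c - g) / c * eval 1 (Ap m g (c + 1))) ^ 2 := by ring
    rw [e]; linarith
  intro t ht
  have h0 : (0 : ℝ) ∈ Set.Ico 0 (Real.pi / 2) := ⟨le_rfl, by linarith [Real.pi_pos]⟩
  have h1 := mono h0 ht ht.1
  simp only [Real.cos_zero, one_pow, div_one] at h1
  have hp : 0 < Real.cos t ^ (2 * m + 2) := pow_pos (hcos t ht) _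
  have Gt : 0 ≤ G t := by
    have := (div_nonneg_iff.1 (G0.trans h1))
    rcases this with h | h
    · exact h.1
    · exact absurd h.2 (not_le.2 hp)
  refine ⟨by simpa [hG] using Gt, ?_⟩
  have k := key m g hc t
  have h4 : Real.cos t * dN (Ap (m + 1) g c) t ≤ 0 := by
    have a1 : 0 ≤ ((m : ℝ) + 1) * Real.sin t * G t := by
      have := hsin t ht
      positivity
    have a2 : 0 ≤ Real.cos t * (((m : ℝ) + 1) * (c - g) * (-dN (Ep m g c) t)) := by
      have := hE t ht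
      have := hcos t ht
      have : 0 ≤ c - g := by linarith
      have : 0 ≤ -dN (Ep m g c) t := by linarith
      positivity
    simp only [hG] at a1
    nlinarith
  by_contra hn
  push Not at hn
  have := mul_pos (hcos t ht) hn
  linarith

lemma dN_nonpos (n : ℕ) {g : ℝ} (hg : 0 ≤ g) : ∀ {c : ℝ}, (n : ℝ) ≤ c - g →
    ∀ t ∈ Set.Ico 0 (Real.pi / 2), dN (Ap n g c) t ≤ 0 := by
  induction n with
  | zero => intro c _ t _; simp [dN, ev, Ap_zero]
  | succ m ih =>
    intro c hs t ht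
    push_cast at hs
    exact (step m hg hs (ih (by linarith)) t ht).2

lemma NN_half (p : ℝ[X]) : NN p (Real.pi / 2) = (p.eval (-1)) ^ 2 := by
  have : ev p (Real.pi / 2) = ((p.eval (-1) : ℝ) : ℂ) := by
    have h := aeval_algebraMap_apply ℂ (-1 : ℝ) p
    have e : ww (Real.pi / 2) ^ 2 = algebraMap ℝ ℂ (-1) := by
      rw [ww_eq]; simp
    rw [ev, e, h]; simp
  rw [NN, this, normSq_ofReal, sq]

lemma on_arc (m : ℕ) {g c : ℝ} (hg : 0 ≤ g) (hs : (m : ℝ) + 1 ≤ c - g) :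
    ∀ t ∈ Set.Icc 0 (Real.pi / 2),
      (c - g) ^ 2 * NN (Ep m g c) t ≤ NN (Ap (m + 1) g c) t ∧
      (pc (c - g) (m + 1) / pc c (m + 1)) ^ 2 ≤ NN (Ap (m + 1) g c) t := by
  have hm : (0 : ℝ) < m + 1 := by positivity
  have hc : 0 < c := by linarith
  have st := step m hg hs (dN_nonpos m hg (by linarith))
  have anti : AntitoneOn (NN (Ap (m + 1) g c)) (Set.Icc 0 (Real.pi / 2)) := by
    apply antitoneOn_of_deriv_nonpos (convex_Icc _ _) (continuous_NN _).continuousOn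
    · exact fun t _ => (hasDerivAt_NN _ t).differentiableAt.differentiableWithinAt
    · intro t ht
      rw [interior_Icc] at ht
      rw [(hasDerivAt_NN _ t).deriv]
      exact (st t ⟨ht.1.le, ht.2⟩).2
  intro t ht
  constructor
  · rcases ht.2.lt_or_eq with h | h
    · exact (st t ⟨ht.1, h⟩).1
    · rw [h, NN_half, NN_half, Ap_neg_one _ _ hc]
      simp only [Ep, eval_mul, eval_C]
      rw [Ap_neg_one _ _ (show 0 < c + 1 by linarith), pc_succ', pc_succ']
      have : c + 1 - g = c - g + 1 := by ring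
      rw [this]
      apply le_of_eq
      ring
  · have := anti ht ⟨by linarith [Real.pi_pos], le_rfl⟩ ht.2
    rwa [NN_half, Ap_neg_one _ _ hc] at this

lemma exists_arc (z : ℂ) (hz : ‖z‖ = 1) :
    ∃ t ∈ Set.Icc 0 (Real.pi / 2), ∀ p : ℝ[X], NN p t = ‖aeval z p‖ ^ 2 := by
  have key : ∀ y : ℂ, ‖y‖ = 1 → ww (arg y / 2) ^ 2 = y := by
    intro y hy
    have h := norm_mul_exp_arg_mul_I y
    rw [hy] at h
    rw [ww, ← Complex.exp_nat_mul]
    simp only [ofReal_one, one_mul] at h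
    rw [← h]
    congr 1
    rw [h]
    push_cast
    ring
  rcases le_total 0 z.im with h | h
  · refine ⟨arg z / 2, ⟨by linarith [arg_nonneg_iff.2 h], by linarith [arg_le_pi z]⟩, fun p => ?_⟩
    rw [NN, ev, key z hz, normSq_eq_norm_sq]
  · have h' : 0 ≤ ((starRingEnd ℂ) z).im := by simpa using h
    refine ⟨arg ((starRingEnd ℂ) z) / 2, ⟨by linarith [arg_nonneg_iff.2 h'],
      by linarith [arg_le_pi ((starRingEnd ℂ) z)]⟩, fun p => ?_⟩
    rw [NN, ev, key _ (by simpa using hz), normSq_eq_norm_sq, aeval_conj]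
    simp

lemma on_circle (m : ℕ) {g c : ℝ} (hg : 0 ≤ g) (hs : (m : ℝ) + 1 ≤ c - g) (z : ℂ) (hz : ‖z‖ = 1) :
    (c - g) * ‖aeval z (Ep m g c)‖ ≤ ‖aeval z (Ap (m + 1) g c)‖ ∧
      pc (c - g) (m + 1) / pc c (m + 1) ≤ ‖aeval z (Ap (m + 1) g c)‖ := by
  obtain ⟨t, ht, h⟩ := exists_arc z hz
  have := on_arc m hg hs t ht
  rw [h, h, ← mul_pow] at this
  exact ⟨(abs_le_of_sq_le_sq' this.1 (norm_nonneg _)).2,
    (abs_le_of_sq_le_sq' this.2 (norm_nonneg _)).2⟩

end Pool.Agent.P.MP_e3b298_an
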