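import Pool.Agent.P.MP_e3b298_an.Circle

/- Robinson polynomials: from the circle to the disc, and the converse. -/

set_option autoImplicit false
open Polynomial Finset Complex Metric

namespace Pool.Agent.P.MP_e3b298_an

lemma aeval_Ap (n : ℕ) (g c : ℝ) (z : ℂ) :
    aeval z (Ap n g c) =
      ∑ k ∈ range (n + 1), (((n.choose k : ℝ) * pc g k / pc c k : ℝ) : ℂ) * z ^ k := by
  simp [Ap, aeval_monomial]

lemma max_mod (p q : ℝ[X]) (M : ℝ) (hq : ∀ z ∈ closedBall (0 : ℂ) 1, aeval z q ≠ 0)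
    (h : ∀ z : ℂ, ‖z‖ = 1 → ‖aeval z p‖ ≤ M * ‖aeval z q‖) :
    ∀ z ∈ closedBall (0 : ℂ) 1, ‖aeval z p‖ ≤ M * ‖aeval z q‖ := by
  intro z hz
  have hd : DiffContOnCl ℂ (fun z : ℂ => aeval z p / aeval z q) (ball 0 1) := by
    apply DifferentiableOn.diffContOnCl
    rw [closure_ball _ one_ne_zero]
    exact (p.differentiable_aeval.differentiableOn).div (q.differentiable_aeval.differentiableOn) hq
  have := Complex.norm_le_of_forall_mem_frontier_norm_le isBounded_ball hd (C := M) (z := z)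
    (by
      intro w hw
      rw [frontier_ball _ one_ne_zero] at hw
      have hw1 : ‖w‖ = 1 := by simpa using hw
      have h0 : 0 < ‖aeval w q‖ := norm_pos_iff.2 (hq w (sphere_subset_closedBall hw))
      rw [norm_div, div_le_iff₀ h0]
      exact h w hw1)
    (by rwa [closure_ball _ one_ne_zero])
  have h0 : 0 < ‖aeval z q‖ := norm_pos_iff.2 (hq z hz)
  rwa [norm_div, div_le_iff₀ h0] at this

lemma zero_free (m : ℕ) {s g : ℝ} (hg : 0 ≤ g) (hs : (m : ℝ) + 1 ≤ s) :
    ∀ z ∈ closedBall (0 : ℂ) 1, aeval z (Ap (m + 1) g (g + s)) ≠ 0 := by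
  have hm : (0 : ℝ) < m + 1 := by positivity
  have hs0 : 0 < s := by linarith
  set μ : ℝ := pc s (m + 1) / pc (g + s) (m + 1) with hμ
  have hμ0 : 0 < μ := div_pos (pc_pos hs0 _) (pc_pos (by linarith) _)
  have cont : ∀ t : ℝ, 0 ≤ t → ∀ z : ℂ,
      ContinuousAt (fun y : ℝ × ℂ => aeval y.2 (Ap (m + 1) y.1 (y.1 + s))) (t, z) := by
    intro t ht z
    simp only [aeval_Ap]
    apply tendsto_finsetSum
    intro k _
    have h1 : ContinuousAt (fun y : ℝ × ℂ =>
        ((m + 1).choose k : ℝ) * pc y.1 k / pc (y.1 + s) k) (t, z) := by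
      apply ContinuousAt.div
      · exact (continuous_const.mul ((continuous_pc k).comp continuous_fst)).continuousAt
      · exact ((continuous_pc k).comp (continuous_fst.add continuous_const)).continuousAt
      · exact (pc_pos (show 0 < t + s by linarith) k).ne'
    exact (continuous_ofReal.continuousAt.comp h1).mul (continuous_snd.pow k).continuousAt
  have up : ∀ t ∈ Set.Icc 0 g, (∀ z ∈ closedBall (0 : ℂ) 1, aeval z (Ap (m + 1) t (t + s)) ≠ 0) →
      ∀ z ∈ closedBall (0 : ℂ) 1, μ ≤ ‖aeval z (Ap (m + 1) t (t + s))‖ := by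
    intro t ht h z hz
    have := max_mod 1 _ μ⁻¹ h (by
      intro w hw
      have h2 := (on_circle m (c := t + s) ht.1 (by linarith) w hw).2
      have e : t + s - t = s := by ring
      rw [e] at h2
      have h3 : μ ≤ pc s (m + 1) / pc (t + s) (m + 1) :=
        div_le_div_of_nonneg_left (pc_pos hs0 _).le (pc_pos (by linarith [ht.1]) _)
          (pc_mono (by linarith [ht.1]) (by linarith [ht.2]) _)
      rw [map_one, norm_one, ← div_eq_inv_mul, le_div_iff₀ hμ0]
      linarith) z hz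
    rw [map_one, norm_one, ← div_eq_inv_mul, le_div_iff₀ hμ0] at this
    linarith
  set T : Set ℝ := {t | ∀ z ∈ closedBall (0 : ℂ) 1, μ ≤ ‖aeval z (Ap (m + 1) t (t + s))‖} with hT
  have hcl : IsClosed (T ∩ Set.Icc 0 g) := by
    have e : T ∩ Set.Icc 0 g = Set.Icc 0 g ∩ ⋂ z ∈ closedBall (0 : ℂ) 1,
        (Set.Icc 0 g ∩ (fun t => ‖aeval z (Ap (m + 1) t (t + s))‖) ⁻¹' Set.Ici μ) := by
      ext t
      simp only [hT, Set.mem_inter_iff, Set.mem_ofPred_eq, Set.mem_iInter, Set.mem_preimage,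
        Set.mem_Ici]
      exact ⟨fun h => ⟨h.2, fun z hz => ⟨h.2, h.1 z hz⟩⟩, fun h => ⟨fun z hz => (h.2 z hz).2, h.1⟩⟩
    rw [e]
    refine isClosed_Icc.inter (isClosed_biInter fun z _ => ?_)
    refine ContinuousOn.preimage_isClosed_of_isClosed ?_ isClosed_Icc isClosed_Ici
    intro t ht
    have h1 : ContinuousAt (fun t : ℝ => (t, z)) t := by fun_prop
    exact ((cont t ht.1 z).comp_of_eq h1 rfl).norm.continuousWithinAt
  have h0 : (0 : ℝ) ∈ T := by
    apply up 0 ⟨le_rfl, hg⟩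
    intro z _
    rw [aeval_Ap, sum_range_succ']
    have : ∀ k, pc 0 (k + 1) = 0 := fun k => by rw [pc_succ']; simp
    simp [this, pc_zero]
  have hgT : g ∈ T := by
    refine hcl.mem_of_ge_of_forall_exists_gt h0 hg ?_
    rintro t ⟨ht, ht0, htg⟩
    have ev : ∀ᶠ t' in nhds t, ∀ z ∈ closedBall (0 : ℂ) 1,
        aeval z (Ap (m + 1) t' (t' + s)) ≠ 0 := by
      apply (isCompact_closedBall (0 : ℂ) 1).eventually_forall_of_forall_eventually
      intro z hz
      have h1 : aeval z (Ap (m + 1) t (t + s)) ≠ 0 := norm_pos_iff.1 (hμ0.trans_le (ht z hz))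
      exact (cont t ht0 z).eventually_ne h1
    have ev2 : ∀ᶠ t' in nhdsWithin t (Set.Ioi t), t' ∈ Set.Ioc t g := Ioc_mem_nhdsGT htg
    obtain ⟨t', h1, h2⟩ := ((ev.filter_mono nhdsWithin_le_nhds).and ev2).exists
    exact ⟨t', up t' ⟨ht0.trans h2.1.le, h2.2⟩ h1, h2⟩
  intro z hz
  exact norm_pos_iff.1 (hμ0.trans_le (hgT z hz))

/-- sufficiency -/
lemma suff (m : ℕ) {g c r : ℝ} (hg : 0 ≤ g) (hr : 1 ≤ r) (hs : ((m : ℝ) + 1) * r ≤ c - g)
    (x z : ℂ) (hx : ‖x‖ ≤ r) (hz : ‖z‖ < 1) :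
    aeval z (Ap (m + 1) g c) + x * (((m : ℂ) + 1) * z * aeval z (Ep m g c)) ≠ 0 := by
  have hm : (0 : ℝ) < m + 1 := by positivity
  have hs1 : (m : ℝ) + 1 ≤ c - g := by nlinarith
  have hs0 : 0 < c - g := by linarith
  have zf := zero_free m hg hs1
  have e : g + (c - g) = c := by ring
  rw [e] at zf
  have hz' : z ∈ closedBall (0 : ℂ) 1 := by simpa using hz.le
  have h1 := max_mod (Ep m g c) _ (c - g)⁻¹ zf (by
    intro w hw
    have := (on_circle m hg hs1 w hw).1
    rw [← div_eq_inv_mul, le_div_iff₀ hs0]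
    linarith) z hz'
  rw [← div_eq_inv_mul, le_div_iff₀ hs0] at h1
  have hA : 0 < ‖aeval z (Ap (m + 1) g c)‖ := norm_pos_iff.2 (zf z hz')
  intro h
  have h2 : ‖aeval z (Ap (m + 1) g c)‖ = ‖x‖ * ((m + 1) * ‖z‖ * ‖aeval z (Ep m g c)‖) := by
    rw [eq_neg_of_add_eq_zero_left h, norm_neg, norm_mul, norm_mul, norm_mul]
    have : ‖(m : ℂ) + 1‖ = m + 1 := by exact_mod_cast Complex.norm_natCast (m + 1)
    rw [this]
  have hE := norm_nonneg (aeval z (Ep m g c))
  have hz0 := norm_nonneg z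
  have h3 : ‖x‖ * (m + 1) ≤ c - g := by nlinarith
  have h4 : ‖x‖ * ((m + 1) * ‖z‖ * ‖aeval z (Ep m g c)‖) ≤
      ‖z‖ * (‖aeval z (Ep m g c)‖ * (c - g)) := by
    have := mul_le_mul_of_nonneg_left h3 (mul_nonneg hz0 hE)
    nlinarith
  nlinarith

lemma root_inside (p : ℝ[X]) (n : ℕ) (hn : p.natDegree ≤ n) (h0 : p.eval 0 = 1)
    (h1 : 1 < p.coeff n) : ∃ z : ℂ, ‖z‖ < 1 ∧ aeval z p = 0 := by
  by_contra hc
  push Not at hc
  set q : ℂ[X] := p.map (algebraMap ℝ ℂ) with hq
  have hd : p.natDegree = n := natDegree_eq_of_le_of_coeff_ne_zero hn (by linarith)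
  have hl : q.leadingCoeff = ((p.coeff n : ℝ) : ℂ) := by
    rw [hq, leadingCoeff_map, leadingCoeff, hd]; rfl
  have h2 := (IsAlgClosed.splits q).eval_eq_prod_roots 0
  have h3 : q.eval 0 = 1 := by
    rw [hq, eval_zero_map, h0, map_one]
  have h4 : ∀ s : Multiset ℂ, (∀ a ∈ s, 1 ≤ ‖a‖) → 1 ≤ ‖(s.map fun a => 0 - a).prod‖ := by
    intro s
    induction s using Multiset.induction_on with
    | empty => simp
    | cons a s ih =>
      intro h
      rw [Multiset.map_cons, Multiset.prod_cons, norm_mul, zero_sub, norm_neg]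
      exact one_le_mul_of_one_le_of_one_le (h a (Multiset.mem_cons_self _ _))
        (ih fun b hb => h b (Multiset.mem_cons_of_mem hb))
  have h5 := h4 q.roots (by
    intro a ha
    by_contra hlt
    push Not at hlt
    apply hc a hlt
    have := (mem_roots'.1 ha).2
    rwa [IsRoot, hq, eval_map_algebraMap] at this)
  have h6 := congrArg norm h2
  rw [h3, norm_one, norm_mul, hl, Complex.norm_real, Real.norm_of_nonneg (by linarith)] at h6
  nlinarith

/-- necessity -/
lemma nec (m : ℕ) {g c r : ℝ} (hc : 0 < c) (hr : 1 ≤ r)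
    (hs : c - g < ((m : ℝ) + 1) * r) :
    ∃ z : ℂ, ‖z‖ < 1 ∧
      aeval z (Ap (m + 1) g c) + (r : ℂ) * (((m : ℂ) + 1) * z * aeval z (Ep m g c)) = 0 := by
  set F : ℝ[X] := Ap (m + 1) g c + C (r * (m + 1)) * (X * Ep m g c) with hF
  have hev : ∀ z : ℂ, aeval z F =
      aeval z (Ap (m + 1) g c) + (r : ℂ) * (((m : ℂ) + 1) * z * aeval z (Ep m g c)) := by
    intro z
    simp only [hF, map_add, map_mul, aeval_C, aeval_X, coe_algebraMap]
    push_cast
    ring
  have hF0 : F.eval 0 = 1 := by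
    simp [hF, ← coeff_zero_eq_eval_zero, coeff_Ap, pc_zero]
  have hc1 : 0 < c + 1 := by linarith
  suffices h : ∃ z : ℂ, ‖z‖ < 1 ∧ aeval z F = 0 by simpa only [hev] using h
  rcases le_or_gt g c with h | h
  · have h1 : F.eval (-1) < 0 := by
      simp only [hF, Ep, eval_add, eval_mul, eval_C, eval_X]
      rw [Ap_neg_one _ _ hc, Ap_neg_one _ _ hc1, pc_succ', pc_succ']
      have e : c + 1 - g = c - g + 1 := by ring
      rw [e]
      have a1 := pc_pos (show 0 < c - g + 1 by linarith) m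
      have a2 := pc_pos hc1 m
      have e2 : (c - g) * pc (c - g + 1) m / (c * pc (c + 1) m) +
          r * (m + 1) * (-1 * (c⁻¹ * (pc (c - g + 1) m / pc (c + 1) m))) =
          -((((m : ℝ) + 1) * r - (c - g)) * (pc (c - g + 1) m / (c * pc (c + 1) m))) := by
        field_simp
        ring
      rw [e2]
      have : 0 < ((m : ℝ) + 1) * r - (c - g) := by linarith
      have : 0 < (((m : ℝ) + 1) * r - (c - g)) * (pc (c - g + 1) m / (c * pc (c + 1) m)) := by
        positivity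
      linarith
    have h2 := intermediate_value_Ioo (show (-1 : ℝ) ≤ 0 by norm_num)
      (F.continuous.continuousOn) (show (0 : ℝ) ∈ Set.Ioo (F.eval (-1)) (F.eval 0) from
        ⟨h1, by rw [hF0]; norm_num⟩)
    obtain ⟨y, hy, hy0⟩ := h2
    refine ⟨(y : ℂ), ?_, ?_⟩
    · rw [Complex.norm_real, Real.norm_eq_abs, abs_lt]
      exact ⟨hy.1, by linarith [hy.2]⟩
    · have := aeval_algebraMap_apply ℂ y F
      simp only [coe_algebraMap, coe_aeval_eq_eval] at this
      rw [this]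
      simp only at hy0
      rw [hy0]; simp
  · have hco : ∀ k, F.coeff (k + 1) = ((m + 1).choose (k + 1) : ℝ) * pc g (k + 1) / pc c (k + 1) +
        r * (m + 1) * (c⁻¹ * ((m.choose k : ℝ) * pc g k / pc (c + 1) k)) := by
      intro k
      simp only [hF, Ep, coeff_add, coeff_C_mul, coeff_X_mul, coeff_Ap]
    apply root_inside F (m + 1) _ hF0
    · rw [hco, Nat.choose_self, Nat.choose_self]
      have a1 : 1 ≤ pc g (m + 1) / pc c (m + 1) :=
        (one_le_div (pc_pos hc _)).2 (pc_mono hc.le h.le _)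
      have a2 := pc_pos (hc.trans h) m
      have a3 := pc_pos hc1 m
      have a4 : 0 < r * (m + 1) * (c⁻¹ * (pc g m / pc (c + 1) m)) := by positivity
      simp only [Nat.cast_one, one_mul]
      linarith
    · rw [natDegree_le_iff_coeff_eq_zero]
      intro N hN
      obtain ⟨k, rfl⟩ : ∃ k, N = k + 1 := ⟨N - 1, by omega⟩
      rw [hco, Nat.choose_eq_zero_of_lt hN, Nat.choose_eq_zero_of_lt (by omega : m < k)]
      simp

lemma sum_eq (m : ℕ) (g : ℝ) {c : ℝ} (hc : 0 < c) (x z : ℂ) :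
    (∑ k ∈ Finset.range (m + 1 + 1),
        ((((m + 1).descFactorial k : ℝ) / (ascPochhammer ℝ k).eval c : ℝ) : ℂ) *
        ((((ascPochhammer ℝ k).eval g / (k.factorial : ℝ)) : ℝ) : ℂ) * z ^ k)
      + x * (∑ k ∈ Finset.range (m + 1),
        ((((m + 1).descFactorial (k + 1) : ℝ) / (ascPochhammer ℝ (k + 1)).eval c : ℝ) : ℂ) *
        ((((ascPochhammer ℝ k).eval g / (k.factorial : ℝ)) : ℝ) : ℂ) * z ^ (k + 1)) =
    aeval z (Ap (m + 1) g c) + x * (((m : ℂ) + 1) * z * aeval z (Ep m g c)) := by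
  congr 1
  · rw [aeval_Ap]
    refine sum_congr rfl fun k _ => ?_
    congr 1
    rw [← ofReal_mul]
    congr 1
    rw [Nat.descFactorial_eq_factorial_mul_choose]
    have : (k.factorial : ℝ) ≠ 0 := by positivity
    have := (pc_pos hc k).ne'
    simp only [pc] at this ⊢
    push_cast
    field_simp
  · congr 1
    simp only [Ep, map_mul, aeval_C, coe_algebraMap]
    rw [aeval_Ap, mul_sum, mul_sum]
    refine sum_congr rfl fun k _ => ?_
    have e : ((((m + 1).descFactorial (k + 1) : ℝ) / (ascPochhammer ℝ (k + 1)).eval c : ℝ)) *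
        (((ascPochhammer ℝ k).eval g / (k.factorial : ℝ)) : ℝ) =
        (m + 1) * (c⁻¹ * ((m.choose k : ℝ) * pc g k / pc (c + 1) k)) := by
      rw [Nat.succ_descFactorial_succ, Nat.descFactorial_eq_factorial_mul_choose]
      have : (k.factorial : ℝ) ≠ 0 := by positivity
      have h1 := (pc_pos (show 0 < c + 1 by linarith) k).ne'
      have h2 := pc_succ' c k
      simp only [pc] at h1 h2 ⊢
      rw [h2]
      push_cast
      field_simp
    rw [← ofReal_mul, e]
    push_cast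
    ring

end Pool.Agent.P.MP_e3b298_an
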