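import Mathlib

set_option autoImplicit false

namespace Pool.Agent.H20Rob

open Finset Filter Topology

/-- Euler derivatives of a polynomial along a ray -/
noncomputable def Fk (n : ℕ) (t : ℕ → ℝ) (ζ : ℂ) (k : ℕ) (r : ℝ) : ℂ :=
  ∑ j ∈ range (n + 1), (j : ℂ) ^ k * (t j : ℂ) * ((r : ℂ) * ζ) ^ j

lemma Fk_deriv (n : ℕ) (t : ℕ → ℝ) (ζ : ℂ) (k : ℕ) (r : ℝ) (hr : r ≠ 0) :
    HasDerivAt (Fk n t ζ k) (Fk n t ζ (k + 1) r / r) r := by
  unfold Fk
  rw [sum_div]
  apply HasDerivAt.fun_sum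
  intro j _
  have h1 : HasDerivAt (fun s : ℝ => (s : ℂ) * ζ) ζ r := by
    simpa using (Complex.ofRealCLM.hasDerivAt (x := r)).mul_const ζ
  refine ((h1.fun_pow j).const_mul ((j : ℂ) ^ k * (t j : ℂ))).congr_deriv ?_
  have hr' : (r : ℂ) ≠ 0 := by exact_mod_cast hr
  cases j with
  | zero => simp
  | succ j => simp only [Nat.add_sub_cancel]; field_simp; ring

lemma Fk_cont (n : ℕ) (t : ℕ → ℝ) (ζ : ℂ) (k : ℕ) : Continuous (Fk n t ζ k) := by
  unfold Fk; fun_prop

lemma Fk_ode (n : ℕ) (t : ℕ → ℝ) (ζ : ℂ) (b α : ℝ)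
    (hrec : ∀ j < n, ((j : ℝ) + 1) * (b + j + 1) * t (j + 1) = (α - j) * (n - j) * t j) (r : ℝ) :
    Fk n t ζ 2 r + b * Fk n t ζ 1 r =
      (r * ζ) * (Fk n t ζ 2 r - (n + α) * Fk n t ζ 1 r + n * α * Fk n t ζ 0 r) := by
  unfold Fk
  simp only [mul_sum, ← sum_add_distrib, ← sum_sub_distrib]
  rw [sum_range_succ', sum_range_succ]
  have h0 : ∀ j ∈ range n, ((j + 1 : ℕ) : ℂ) ^ 2 * (t (j + 1) : ℂ) * ((r : ℂ) * ζ) ^ (j + 1)
      + (b : ℂ) * (((j + 1 : ℕ) : ℂ) ^ 1 * (t (j + 1) : ℂ) * ((r : ℂ) * ζ) ^ (j + 1)) =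
      (r * ζ) * ((j : ℂ) ^ 2 * (t j : ℂ) * ((r : ℂ) * ζ) ^ j
        - (n + α) * ((j : ℂ) ^ 1 * (t j : ℂ) * ((r : ℂ) * ζ) ^ j)
        + n * α * ((j : ℂ) ^ 0 * (t j : ℂ) * ((r : ℂ) * ζ) ^ j)) := by
    intro j hj
    have h := congrArg (fun x : ℝ => (x : ℂ)) (hrec j (mem_range.1 hj))
    push_cast at h ⊢
    linear_combination ((r : ℂ) * ζ) ^ (j + 1) * h
  rw [sum_congr rfl h0]
  congr 1
  push_cast
  ring

theorem green (n : ℕ) (t : ℕ → ℝ) (ζ : ℂ) (b α : ℝ) (hα : 0 < α) (hb1 : n - α ≤ b)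
    (hb2 : α - n ≤ b) (ht : t 0 ≠ 0)
    (hrec : ∀ j < n, ((j : ℝ) + 1) * (b + j + 1) * t (j + 1) = (α - j) * (n - j) * t j)
    (hζ : ‖ζ‖ = 1) (him : ζ.im ≠ 0) : ∑ j ∈ range (n + 1), (t j : ℂ) * ζ ^ j ≠ 0 := by
  intro hzero
  have hn0 : (0 : ℝ) ≤ n := Nat.cast_nonneg n
  have hb0 : 0 ≤ b := by linarith
  set M : ℝ := b + n + α with hM
  have hM0 : 0 < M := by positivity
  set x := ζ.re with hx
  set y := ζ.im with hy
  have hxy : x ^ 2 + y ^ 2 = 1 := by
    have := Complex.sq_norm ζ; rw [hζ, Complex.normSq_apply] at this; linarith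
  have hy2 : 0 < y ^ 2 := by positivity
  set ν : ℝ → ℝ := fun r => 1 - 2 * r * x + r ^ 2 with hν
  have hν0 : ∀ r, 0 < ν r := by
    intro r
    have : ν r = (r - x) ^ 2 + y ^ 2 := by simp only [hν]; linarith
    rw [this]; positivity
  set a : ℝ → ℝ := fun r => (r * x - r ^ 2) / ν r with ha
  set c : ℝ → ℝ := fun r => r * y / ν r with hc
  set F := Fk n t ζ with hF
  set W : ℝ → ℝ := fun r => r ^ b * Real.exp (-(M / 2) * Real.log (ν r)) with hW
  set Ψ : ℝ → ℝ := fun r => ((F 0 r).re * (F 1 r).im - (F 0 r).im * (F 1 r).re)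
    + M / 2 * (c r * ((F 0 r).re ^ 2 + (F 0 r).im ^ 2)) with hΨ
  set G : ℝ → ℝ := fun r => n * α + M * (1 + b) / 2 + a r * (M + M ^ 2 / 2) with hG
  have dν : ∀ r, HasDerivAt ν (2 * r - 2 * x) r := by
    intro r
    have h := (((hasDerivAt_id r).const_mul 2).mul_const x).const_sub 1 |>.add
      (hasDerivAt_pow 2 r)
    refine h.congr_deriv ?_
    simp; ring
  have dc : ∀ r, r ≠ 0 → HasDerivAt c (c r * (1 + 2 * a r) / r) r := by
    intro r hr
    refine (((hasDerivAt_id r).mul_const y).div (dν r) (hν0 r).ne').congr_deriv ?_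
    have h1 := (hν0 r).ne'
    simp only [hc, ha, id]
    field_simp
    simp only [hν]; ring
  have dW : ∀ r, 0 < r → HasDerivAt W (W r * (b + M * a r) / r) r := by
    intro r hr
    have h1 : HasDerivAt (fun r : ℝ => r ^ b) (b * r ^ (b - 1)) r :=
      Real.hasDerivAt_rpow_const (Or.inl hr.ne')
    have h2 := (((dν r).log (hν0 r).ne').const_mul (-(M / 2))).exp
    refine (h1.mul h2).congr_deriv ?_
    have h3 := (hν0 r).ne'
    simp only [hW, ha]
    rw [Real.rpow_sub_one hr.ne']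
    field_simp
    ring
  have hF2 : ∀ r : ℝ, F 2 r = -(b + M * ((a r : ℂ) + c r * Complex.I)) * F 1 r
      + n * α * ((a r : ℂ) + c r * Complex.I) * F 0 r := by
    intro r
    have h1 := Fk_ode n t ζ b α hrec r
    have h2 : ((a r : ℂ) + c r * Complex.I) * (1 - r * ζ) = r * ζ := by
      have h3 := (hν0 r).ne'
      apply Complex.ext
      · simp [← hx, ← hy]
        simp only [ha, hc]
        field_simp
        simp only [hν]
        linear_combination r ^ 2 * hxy
      · simp [← hx, ← hy]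
        simp only [ha, hc]
        field_simp
        simp only [hν]
        ring
    have h4 : (1 : ℂ) - r * ζ ≠ 0 := by
      intro h
      rw [h, mul_zero] at h2
      rw [← h2] at h
      simp at h
    apply mul_right_cancel₀ h4
    rw [← hF] at h1
    have hMc : (M : ℂ) = b + n + α := by rw [hM]; push_cast; ring
    rw [hMc]
    linear_combination h1 + ((b + n + α) * F 1 r - n * α * F 0 r) * h2
  have dre : ∀ k r, r ≠ 0 → HasDerivAt (fun r => (F k r).re) ((F (k + 1) r).re / r) r := by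
    intro k r hr
    have := (Complex.reCLM.hasFDerivAt.comp_hasDerivAt r (Fk_deriv n t ζ k r hr))
    simpa [Function.comp_def, Complex.div_ofReal_re] using this
  have dim : ∀ k r, r ≠ 0 → HasDerivAt (fun r => (F k r).im) ((F (k + 1) r).im / r) r := by
    intro k r hr
    have := (Complex.imCLM.hasFDerivAt.comp_hasDerivAt r (Fk_deriv n t ζ k r hr))
    simpa [Function.comp_def, Complex.div_ofReal_im] using this
  have dΦ : ∀ r, 0 < r → HasDerivAt (fun r => y * (W r * Ψ r))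
      (y * c r * W r * ((F 0 r).re ^ 2 + (F 0 r).im ^ 2) * G r / r) r := by
    intro r hr
    have h1 := (((dre 0 r hr.ne').mul (dim 1 r hr.ne')).sub
      ((dim 0 r hr.ne').mul (dre 1 r hr.ne'))).add
      (((dc r hr.ne').mul (((dre 0 r hr.ne').fun_pow 2).add
        ((dim 0 r hr.ne').fun_pow 2))).const_mul (M / 2))
    have h2 : HasDerivAt Ψ _ r := h1
    refine (((dW r hr).mul h2).const_mul y).congr_deriv ?_
    have e1 : (F 2 r).re = -(b + M * a r) * (F 1 r).re + M * c r * (F 1 r).im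
        + n * α * (a r * (F 0 r).re - c r * (F 0 r).im) := by
      rw [hF2 r]; simp; ring
    have e2 : (F 2 r).im = -(b + M * a r) * (F 1 r).im - M * c r * (F 1 r).re
        + n * α * (a r * (F 0 r).im + c r * (F 0 r).re) := by
      rw [hF2 r]; simp; ring
    simp only [zero_add, Nat.reduceAdd, e1, e2, hΨ, hG, Pi.add_apply]
    field_simp
    ring
  have hGpos : ∀ r, 0 < r → r < 1 → 0 < G r := by
    intro r h0 h1
    have h2 : -(1 / 2) < a r := by
      simp only [ha]
      rw [lt_div_iff₀ (hν0 r)]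
      simp only [hν]
      nlinarith
    have h3 : 0 < M + M ^ 2 / 2 := by positivity
    have h4 : 0 ≤ (b - (n - α)) * (b - (α - n)) := mul_nonneg (by linarith) (by linarith)
    have h5 : -(1 / 2) * (M + M ^ 2 / 2) < a r * (M + M ^ 2 / 2) := by gcongr
    simp only [hG]
    rw [hM] at *
    nlinarith
  have hWpos : ∀ r, 0 < r → 0 < W r := fun r hr =>
    mul_pos (Real.rpow_pos_of_pos hr b) (Real.exp_pos _)
  have hcpos : ∀ r, 0 < r → 0 < y * c r := by
    intro r hr
    have : y * c r = r * y ^ 2 / ν r := by simp only [hc]; ring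
    rw [this]; have := hν0 r; positivity
  have hcont : Continuous fun r => y * (W r * Ψ r) := by
    have c1 : Continuous ν := by simp only [hν]; fun_prop
    have c2 : Continuous c := by
      simp only [hc]; exact (continuous_id.mul continuous_const).div c1 fun r => (hν0 r).ne'
    have c3 : Continuous W := by
      simp only [hW]
      exact (Real.continuous_rpow_const hb0).mul
        (continuous_const.mul (c1.log fun r => (hν0 r).ne')).rexp
    have c4 := Fk_cont n t ζ 0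
    have c5 := Fk_cont n t ζ 1
    rw [← hF] at c4 c5
    simp only [hΨ]
    fun_prop
  have hmono : MonotoneOn (fun r => y * (W r * Ψ r)) (Set.Icc 0 1) := by
    apply monotoneOn_of_deriv_nonneg (convex_Icc 0 1) hcont.continuousOn
    · intro r hr
      rw [interior_Icc] at hr
      exact (dΦ r hr.1).differentiableAt.differentiableWithinAt
    · intro r hr
      rw [interior_Icc] at hr
      rw [(dΦ r hr.1).deriv]
      have := hGpos r hr.1 hr.2
      have := hWpos r hr.1
      have := hcpos r hr.1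
      have := hr.1
      positivity
  have hF00 : F 0 0 = t 0 := by
    simp [hF, Fk, sum_range_succ']
  have hF10 : F 1 0 = 0 := by
    simp [hF, Fk, sum_range_succ']
  have hF01 : F 0 1 = 0 := by
    simpa [hF, Fk] using hzero
  have hΦ0 : y * (W 0 * Ψ 0) = 0 := by simp [hΨ, hF10, hc]
  have hΦ1 : y * (W 1 * Ψ 1) = 0 := by simp [hΨ, hF01]
  have hall : ∀ r ∈ Set.Ioo (0 : ℝ) 1, y * (W r * Ψ r) = 0 := by
    intro r hr
    have h1 := hmono ⟨le_rfl, zero_le_one⟩ ⟨hr.1.le, hr.2.le⟩ hr.1.le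
    have h2 := hmono ⟨hr.1.le, hr.2.le⟩ ⟨zero_le_one, le_rfl⟩ hr.2.le
    simp only at h1 h2
    linarith
  have hev : ∀ᶠ r in 𝓝[>] (0 : ℝ), F 0 r ≠ 0 := by
    apply nhdsWithin_le_nhds
    apply (Fk_cont n t ζ 0).continuousAt.eventually_ne
    rw [← hF, hF00]; exact_mod_cast ht
  obtain ⟨r, hr1, hr2⟩ := (hev.and (Ioo_mem_nhdsGT zero_lt_one)).exists
  have h1 : HasDerivAt (fun r => y * (W r * Ψ r)) 0 r := by
    refine (hasDerivAt_const r (0 : ℝ)).congr_of_eventuallyEq ?_
    filter_upwards [isOpen_Ioo.mem_nhds hr2] with s hs using hall s hs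
  have h2 := (dΦ r hr2.1).unique h1
  have h3 : 0 < (F 0 r).re ^ 2 + (F 0 r).im ^ 2 := by
    have := Complex.normSq_pos.2 hr1
    rw [Complex.normSq_apply] at this
    nlinarith
  have := hGpos r hr2.1 hr2.2
  have := hWpos r hr2.1
  have := hcpos r hr2.1
  have := hr2.1
  have h4 : 0 < y * c r * W r * ((F 0 r).re ^ 2 + (F 0 r).im ^ 2) * G r / r := by positivity
  linarith

end Pool.Agent.H20Rob
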