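import Pool.Agent.P.MP_e3b298_an.H20Core2
import Pool.Agent.P.MP_e3b298_an.H20Green

set_option autoImplicit false

namespace Pool.Agent.H20Rob

open Finset PowerSeries Filter Topology

lemma rc_zero (n : ℕ) (β : ℝ) : rc n β 0 = 1 := by simp [rc]

lemma rc_succ (n : ℕ) (β : ℝ) (k : ℕ) :
    rc n β (k + 1) = rc n β k * (((n - k : ℕ) : ℝ) / (β + n + k)) := by
  rw [rc, rc, Nat.descFactorial_succ, ascPochhammer_succ_eval, div_mul_div_comm]
  push_cast; ring

lemma choose_rc (n : ℕ) (β : ℝ) (hβ : 0 < β + n) (k : ℕ) (hk : k ≤ n) :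
    Ring.choose (2 * (n : ℝ) + β - 1) (n - k) = Ring.choose (2 * (n : ℝ) + β - 1) n * rc n β k := by
  induction k with
  | zero => simp [rc_zero]
  | succ k ih =>
    have h1 := choose_succ_mul (2 * (n : ℝ) + β - 1) (n - (k + 1))
    rw [show n - (k + 1) + 1 = n - k by omega, ih (by omega)] at h1
    have h2 : β + n + k ≠ 0 := by positivity
    rw [rc_succ, Nat.cast_sub (by omega : k ≤ n)]
    rw [Nat.cast_sub hk] at h1
    push_cast at h1
    field_simp
    linear_combination -h1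

lemma choose_pos' (a : ℝ) (k : ℕ) (h : (k : ℝ) - 1 < a) : 0 < Ring.choose a k := by
  induction k with
  | zero => simp
  | succ k ih =>
    push_cast at h
    have h1 := choose_succ_mul a k
    have h2 : 0 < Ring.choose a k * (a - k) := mul_pos (ih (by linarith)) (by linarith)
    rw [← h1] at h2
    exact (mul_pos_iff_of_pos_right (by positivity)).1 h2

lemma continuousAt_rc (n : ℕ) (β : ℝ) (hβ : 0 < β + n) (k : ℕ) :
    ContinuousAt (fun β => rc n β k) β := by
  induction k with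
  | zero => simp only [rc_zero]; exact continuousAt_const
  | succ k ih =>
    simp only [rc_succ]
    exact ih.mul (continuousAt_const.div (by fun_prop) (by positivity))

lemma tendsto_rc (n k : ℕ) : Tendsto (fun β => rc n β (k + 1)) atTop (𝓝 0) := by
  have h : ∀ k : ℕ, Tendsto (fun β : ℝ => ((n - k : ℕ) : ℝ) / (β + n + k)) atTop (𝓝 0) :=
    fun k => tendsto_const_nhds.div_atTop
      (tendsto_atTop_add_const_right _ _ (tendsto_atTop_add_const_right _ _ tendsto_id))
  induction k with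
  | zero => simpa [rc_succ, rc_zero] using h 0
  | succ k ih =>
    have := ih.mul (h (k + 1))
    simpa only [← rc_succ, mul_zero] using this

lemma coeff_binN_mul (n : ℕ) (β : ℝ) (hβ : 0 < β + n) (G : ℂ⟦X⟧) :
    coeff n (bin (2 * (n : ℝ) + β - 1) 1 * G) = ((Ring.choose (2 * (n : ℝ) + β - 1) n : ℝ) : ℂ) *
      ∑ k ∈ range (n + 1), (rc n β k : ℂ) * coeff k G := by
  rw [mul_comm, coeff_mul, Finset.Nat.sum_antidiagonal_eq_sum_range_succ
    (fun i j => coeff i G * coeff j (bin (2 * (n : ℝ) + β - 1) 1)), mul_sum]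
  refine sum_congr rfl fun k hk => ?_
  rw [coeff_bin, choose_rc n β hβ k (Nat.lt_succ_iff.1 (mem_range.1 hk)), Complex.ofReal_mul]
  ring

lemma coeff_bin_bin (n : ℕ) (A α : ℝ) (u : ℂ) : coeff n (bin A 1 * bin α u) =
    ∑ j ∈ range (n + 1), ((Ring.choose α j * Ring.choose A (n - j) : ℝ) : ℂ) * u ^ j := by
  rw [mul_comm, coeff_mul, Finset.Nat.sum_antidiagonal_eq_sum_range_succ
    (fun i j => coeff i (bin α u) * coeff j (bin A 1))]
  refine sum_congr rfl fun k _ => ?_
  rw [coeff_bin, coeff_bin, Complex.ofReal_mul]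
  ring

lemma coef_bound (d : ℕ) (p : Polynomial ℂ) (hd : p.natDegree ≤ d)
    (h : ∀ z : ℂ, ‖z‖ < 1 → p.eval z ≠ 0) : ‖p.coeff 1‖ ≤ d * ‖p.coeff 0‖ := by
  induction d generalizing p with
  | zero => rw [Polynomial.coeff_eq_zero_of_natDegree_lt (by omega)]; simp
  | succ d ih =>
    by_cases h0 : p.natDegree = 0
    · rw [Polynomial.coeff_eq_zero_of_natDegree_lt (by omega), norm_zero]; positivity
    · obtain ⟨r, hr⟩ := Complex.exists_root
        (Polynomial.natDegree_pos_iff_degree_pos.1 (Nat.pos_of_ne_zero h0))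
      obtain ⟨q, hq⟩ := Polynomial.dvd_iff_isRoot.2 hr
      have hr1 : 1 ≤ ‖r‖ := by
        by_contra hc
        exact h r (not_le.1 hc) hr
      have hq0 : q ≠ 0 := by
        rintro rfl
        rw [mul_zero] at hq
        exact h0 (by rw [hq]; simp)
      have hdq : q.natDegree ≤ d := by
        rw [hq, Polynomial.natDegree_mul (Polynomial.X_sub_C_ne_zero r) hq0,
          Polynomial.natDegree_X_sub_C] at hd
        omega
      have h1 := ih q hdq (fun z hz hz0 => h z hz (by rw [hq]; simp [hz0]))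
      have h2 : p.coeff 0 = -r * q.coeff 0 := by rw [hq, sub_mul]; simp
      have h3 : p.coeff 1 = q.coeff 0 - r * q.coeff 1 := by
        rw [hq, sub_mul, Polynomial.coeff_sub, Polynomial.coeff_X_mul, Polynomial.coeff_C_mul]
      rw [h2, h3, norm_mul, norm_neg]
      refine (norm_sub_le _ _).trans ?_
      rw [norm_mul]
      push_cast
      have h4 := norm_nonneg (q.coeff 0)
      have h5 : ‖r‖ * ‖q.coeff 1‖ ≤ ‖r‖ * (d * ‖q.coeff 0‖) := by gcongr
      nlinarith

variable {ι : Type*} [Fintype ι]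

/-- the Hadamard product at `z = 1` as a function of the points -/
noncomputable def FF (n : ℕ) (β : ℝ) (μ : ι → ℝ) (v : ι → ℂ) : ℂ :=
  ∑ k ∈ range (n + 1), (rc n β k : ℂ) * coeff k (HH μ v)

/-- no zero in the open polydisc -/
def Stab (n : ℕ) (β : ℝ) (μ : ι → ℝ) : Prop := ∀ v : ι → ℂ, (∀ i, ‖v i‖ < 1) → FF n β μ v ≠ 0

lemma FF_mul (n : ℕ) (β : ℝ) (μ : ι → ℝ) (v : ι → ℂ) (z : ℂ) :
    FF n β μ (fun i => v i * z) = had n β (HH μ v) z := by
  have : HH μ (fun i => v i * z) = rescale z (HH μ v) := by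
    simp only [HH, bin_rescale, map_prod]
  rw [FF, had, this]
  refine sum_congr rfl fun k _ => ?_
  rw [coeff_rescale]; ring

lemma FF_zero (n : ℕ) (β : ℝ) (μ : ι → ℝ) : FF n β μ (fun _ => 0) = 1 := by
  simp [FF, HH, bin_zero_right, coeff_one, rc_zero]

lemma differentiable_FF (n : ℕ) (β : ℝ) (μ : ι → ℝ) : Differentiable ℂ (FF n β μ) := by
  unfold FF
  exact Differentiable.fun_sum fun k _ =>
    ((contDiff_HH μ k).differentiable (by simp)).const_mul _

lemma continuousAt_FF (n : ℕ) (β : ℝ) (hβ : 0 < β + n) (μ : ι → ℝ) (v : ι → ℂ) :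
    ContinuousAt (fun p : ℝ × (ι → ℂ) => FF n p.1 μ p.2) (β, v) := by
  unfold FF
  apply tendsto_finsetSum
  intro k _
  apply ContinuousAt.mul
  · have h1 : ContinuousAt (fun p : ℝ × (ι → ℂ) => rc n p.1 k) (β, v) :=
      (continuousAt_rc n β hβ k).comp_of_eq (f := fun p : ℝ × (ι → ℂ) => p.1)
        continuousAt_fst rfl
    exact Complex.continuous_ofReal.continuousAt.comp h1
  · exact ((contDiff_HH μ k).continuous.comp continuous_snd).continuousAt

lemma coeff_one_HH (μ : ι → ℝ) (v : ι → ℂ) : coeff 1 (HH μ v) = ∑ i, (μ i : ℂ) * v i := by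
  have h := sum_P1 1 μ v
  rw [Nat.cast_one, one_mul] at h
  rw [← h]
  refine sum_congr rfl fun i _ => ?_
  rw [P1, ps, mul_assoc, mul_assoc, coeff_C_mul, coeff_succ_X_mul,
    coeff_zero_eq_constantCoeff_apply, map_mul, ← coeff_zero_eq_constantCoeff_apply,
    ← coeff_zero_eq_constantCoeff_apply, constantCoeff_HH]
  simp [iv]

lemma Stab.first_bound {n : ℕ} {β : ℝ} {μ : ι → ℝ} (h : Stab n β μ) (hn : 1 ≤ n)
    (hβ : 0 < β + n) : ∑ i, max (μ i) 0 + ∑ i, max (-μ i) 0 ≤ β + n := by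
  set v : ι → ℂ := fun i => if μ i < 0 then -1 else 1 with hv
  set p : Polynomial ℂ := ∑ k ∈ range (n + 1),
    Polynomial.monomial k ((rc n β k : ℂ) * coeff k (HH μ v)) with hp
  have hc : ∀ j, j ≤ n → p.coeff j = (rc n β j : ℂ) * coeff j (HH μ v) := by
    intro j hj
    rw [hp, Polynomial.finsetSum_coeff]
    simp only [Polynomial.coeff_monomial]
    rw [sum_ite_eq' (range (n + 1)) j, if_pos (mem_range.2 (by omega))]
  have h1 := coef_bound n p (by
    rw [hp]
    refine Polynomial.natDegree_sum_le_of_forall_le _ _ fun k hk => ?_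
    exact (Polynomial.natDegree_monomial_le _).trans (Nat.lt_succ_iff.1 (mem_range.1 hk))) (by
    intro z hz
    have h2 := h (fun i => v i * z) (fun i => by
      rw [norm_mul]; simp only [hv]; split_ifs <;> simpa using hz)
    rw [FF_mul, had] at h2
    rw [hp, Polynomial.eval_finsetSum]
    simpa only [Polynomial.eval_monomial] using h2)
  have h3 : ∑ i, (μ i : ℂ) * v i = ((∑ i, max (μ i) 0 + ∑ i, max (-μ i) 0 : ℝ) : ℂ) := by
    rw [← sum_add_distrib, Complex.ofReal_sum]
    refine sum_congr rfl fun i _ => ?_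
    simp only [hv]
    split_ifs with hi
    · rw [max_eq_right hi.le, max_eq_left (by linarith)]; simp
    · rw [max_eq_left (not_lt.1 hi), max_eq_right (by linarith [not_lt.1 hi])]; simp
  rw [hc 1 hn, hc 0 (by omega), constantCoeff_HH, coeff_one_HH, h3, rc_succ, rc_zero,
    ← Complex.ofReal_mul, Complex.norm_real] at h1
  have h4 := (le_abs_self _).trans h1
  have hn0 : (0 : ℝ) < n := by exact_mod_cast hn
  simp only [Nat.sub_zero, Nat.cast_zero, add_zero, one_mul, Complex.ofReal_one, mul_one,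
    norm_one] at h4
  rw [div_mul_eq_mul_div, div_le_iff₀ hβ] at h4
  exact le_of_mul_le_mul_left h4 hn0

lemma sum_max_sub (μ : ι → ℝ) : ∑ i, μ i = ∑ i, max (μ i) 0 - ∑ i, max (-μ i) 0 := by
  rw [← sum_sub_distrib]
  refine sum_congr rfl fun i _ => ?_
  rcases le_total (μ i) 0 with h | h
  · rw [max_eq_right h, max_eq_left (by linarith)]; ring
  · rw [max_eq_left h, max_eq_right (by linarith)]; ring

theorem no_torus_zero {n : ℕ} {β α γ : ℝ} {μ : ι → ℝ} (h : Stab n β μ) (hn : 1 ≤ n)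
    (hβ : 0 < β + n) (hα : ∑ i, max (μ i) 0 = α) (hγ : ∑ i, max (-μ i) 0 = γ) (hα0 : 0 < α)
    (hs : 1 < β - γ + α) (hK : kraw n α (β - γ) ≠ 0) (v : ι → ℂ) (hv : ∀ i, ‖v i‖ = 1) :
    FF n β μ v ≠ 0 := by
  classical
  intro h0
  have hB := h.first_bound hn hβ
  rw [hα, hγ] at hB
  have hn1 : (1 : ℝ) ≤ n := by exact_mod_cast hn
  set N : ℝ := 2 * (n : ℝ) + β - 1 with hN
  set μ' : Option ι → ℝ := fun o => o.elim N μ with hμ'
  have hH : ∀ w : Option ι → ℂ, w none = 1 → coeff n (HH μ' w) =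
      ((Ring.choose N n : ℝ) : ℂ) * FF n β μ (fun i => w (some i)) := by
    intro w hw
    rw [HH, Fintype.prod_option, hw, FF, ← coeff_binN_mul n β hβ]
    rfl
  have hc : ((Ring.choose N n : ℝ) : ℂ) ≠ 0 := by
    have := choose_pos' N n (by rw [hN]; linarith)
    exact_mod_cast this.ne'
  have hS : St n μ' none := by
    intro w hw hw'
    rw [hH w hw]
    exact mul_ne_zero hc (h _ fun i => hw' _ (by simp))
  have herase : ∀ f : Option ι → ℝ, ∑ i ∈ univ.erase none, f i = ∑ i, f (some i) := by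
    intro f
    have h1 := add_sum_erase univ f (mem_univ none)
    rw [Fintype.sum_option] at h1
    exact add_left_cancel h1
  obtain ⟨ζ, hζ, hζ1, hz⟩ := core (u := fun o => o.elim 1 v) (α := α) (γ := γ) hS
    (by rintro (_ | i) <;> simp [hv]) rfl (by rw [hH _ rfl]; simp [h0]) hn
    (by rw [herase]; exact hα) (by rw [herase]; exact hγ) hα0
    (by change γ < N; rw [hN]; linarith)
    (by
      rw [Fintype.sum_option]
      change _ < N + ∑ i, μ i
      rw [sum_max_sub, hα, hγ, hN]; linarith)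
  change coeff n (bin (N - γ) 1 * bin α ζ) = 0 at hz
  rw [coeff_bin_bin] at hz
  by_cases him : ζ.im = 0
  · have h1 : ζ = -1 := by
      have h2 : ζ = (ζ.re : ℂ) := by apply Complex.ext <;> simp [him]
      rw [h2, Complex.norm_real, Real.norm_eq_abs] at hζ
      rcases (abs_eq zero_le_one).1 hζ with h3 | h3
      · exact absurd (by rw [h2, h3]; simp) hζ1
      · rw [h2, h3]; simp
    apply hK
    have h4 : ((kraw n α (β - γ) : ℝ) : ℂ) = 0 := by
      rw [← hz, kraw, Complex.ofReal_sum, h1]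
      refine sum_congr rfl fun j _ => ?_
      rw [show 2 * (n : ℝ) + (β - γ) - 1 = N - γ by rw [hN]; ring, mul_assoc, Complex.ofReal_mul]
      simp only [Complex.ofReal_pow, Complex.ofReal_neg, Complex.ofReal_one]
      ring
    exact_mod_cast h4
  · refine green n (fun j => Ring.choose α j * Ring.choose (N - γ) (n - j)) ζ (N - γ - n) α hα0
      (by rw [hN]; linarith) (by rw [hN]; linarith) ?_ ?_ hζ him hz
    · simp only [Ring.choose_zero_right, one_mul, Nat.sub_zero]
      exact (choose_pos' _ n (by rw [hN]; linarith)).ne'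
    · intro j hj
      have h1 := choose_succ_mul α j
      have h2 := choose_succ_mul (N - γ) (n - (j + 1))
      rw [show n - (j + 1) + 1 = n - j by omega, Nat.cast_sub (by omega)] at h2
      push_cast at h2
      linear_combination (N - γ - n + j + 1) * Ring.choose (N - γ) (n - (j + 1)) * h1
        - (α - j) * Ring.choose α j * h2

lemma stab_closed {n : ℕ} {β : ℝ} {μ : ι → ℝ} (hβ : 0 < β + n)
    (h : ∃ᶠ β' in 𝓝 β, Stab n β' μ) : Stab n β μ := by
  intro v hv h0
  have hv1 : ‖v‖ < 1 := (pi_norm_lt_iff one_pos).2 hv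
  have h1 := hurwitz (fun (β' : ℝ) (z : ℂ) => FF n β' μ (fun i => v i * z)) β
    (fun σ => (continuousAt_FF n β hβ μ (fun i => v i * σ)).comp_of_eq
      (f := fun p : ℝ × ℂ => (p.1, fun i => v i * p.2)) (x := (β, σ)) (by fun_prop) rfl)
    (fun β' => (differentiable_FF n β' μ).comp (by fun_prop)) 1 (by simpa using h0)
    ⟨0, by simp [FF_zero]⟩ (1 - ‖v‖) (by linarith)
  obtain ⟨β', h2, σ, hσ, h3⟩ := (h.and_eventually h1).exists
  refine h2 _ (fun i => ?_) h3
  have h4 := norm_le_norm_add_const_of_dist_le hσ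
  have h5 := norm_le_pi_norm v i
  rw [norm_one] at h4
  rw [norm_mul]
  calc ‖v i‖ * ‖σ‖ ≤ ‖v‖ * (1 + (1 - ‖v‖)) := by gcongr
    _ < 1 := by nlinarith

lemma stab_open {n : ℕ} {β : ℝ} {μ : ι → ℝ} (hβ : 0 < β + n)
    (h : ∀ v : ι → ℂ, (∀ i, ‖v i‖ ≤ 1) → FF n β μ v ≠ 0) : ∀ᶠ β' in 𝓝 β, Stab n β' μ := by
  have h1 : ∀ᶠ β' in 𝓝 β, ∀ v ∈ Metric.closedBall (0 : ι → ℂ) 1, FF n β' μ v ≠ 0 := by
    apply (isCompact_closedBall _ _).eventually_forall_of_forall_eventually
    intro v hv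
    rw [mem_closedBall_zero_iff, pi_norm_le_iff_of_nonneg zero_le_one] at hv
    exact (continuousAt_FF n β hβ μ v).eventually_ne (h v hv)
  filter_upwards [h1] with β' hβ' v hv
  apply hβ'
  rw [mem_closedBall_zero_iff, pi_norm_le_iff_of_nonneg zero_le_one]
  exact fun i => (hv i).le

lemma stab_large (n : ℕ) (μ : ι → ℝ) : ∀ᶠ β in atTop, Stab n β μ := by
  have hb : ∀ k : ℕ, ∃ C : ℝ, ∀ v ∈ Metric.closedBall (0 : ι → ℂ) 1, ‖coeff k (HH μ v)‖ ≤ C :=
    fun k => (isCompact_closedBall _ _).exists_bound_of_continuousOn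
      (contDiff_HH μ k).continuous.continuousOn
  choose C hC using hb
  have h1 : Tendsto (fun β => ∑ k ∈ range n, |rc n β (k + 1)| * C (k + 1)) atTop (𝓝 0) := by
    have : (0 : ℝ) = ∑ k ∈ range n, |(0 : ℝ)| * C (k + 1) := by simp
    rw [this]
    exact tendsto_finsetSum _ fun k _ => (tendsto_rc n k).abs.mul_const _
  filter_upwards [h1.eventually_lt_const one_pos] with β hβ v hv h0
  have hv' : v ∈ Metric.closedBall (0 : ι → ℂ) 1 := by
    rw [mem_closedBall_zero_iff, pi_norm_le_iff_of_nonneg zero_le_one]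
    exact fun i => (hv i).le
  rw [FF, sum_range_succ', rc_zero, constantCoeff_HH] at h0
  have h2 : ‖∑ k ∈ range n, (rc n β (k + 1) : ℂ) * coeff (k + 1) (HH μ v)‖
      ≤ ∑ k ∈ range n, |rc n β (k + 1)| * C (k + 1) := by
    refine (norm_sum_le _ _).trans (sum_le_sum fun k _ => ?_)
    rw [norm_mul, Complex.norm_real, Real.norm_eq_abs]
    gcongr
    exact hC _ v hv'
  have h3 : ∑ k ∈ range n, (rc n β (k + 1) : ℂ) * coeff (k + 1) (HH μ v) = -1 := by
    simp only [Complex.ofReal_one, mul_one] at h0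
    linear_combination h0
  rw [h3] at h2
  simp at h2
  linarith

theorem cont_method {n : ℕ} {μ : ι → ℝ} {β0 : ℝ} (h0 : 0 ≤ β0 + n)
    (h : ∀ β, β0 < β → Stab n β μ → ∀ v : ι → ℂ, (∀ i, ‖v i‖ = 1) → FF n β μ v ≠ 0) :
    ∀ β, β0 < β → Stab n β μ := by
  have h1 : Set.Ioi β0 ⊆ {β | β0 < β ∧ Stab n β μ} := by
    apply isPreconnected_Ioi.subset_of_closure_inter_subset
    · rw [isOpen_iff_mem_nhds]
      rintro β ⟨hβ, hs⟩
      have h2 := stab_open (n := n) (β := β) (μ := μ) (by linarith) (by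
        intro v hv hz
        obtain ⟨w, hw, hw0⟩ := torus_zero _ (differentiable_FF n β μ) 1 one_pos hs v hv hz
        exact h β hβ hs w hw hw0)
      filter_upwards [h2, lt_mem_nhds hβ] with β' h3 h4 using ⟨h4, h3⟩
    · obtain ⟨β, h2, h3⟩ := ((stab_large n μ).and (eventually_gt_atTop β0)).exists
      exact ⟨β, h3, h3, h2⟩
    · rintro β ⟨h2, h3⟩
      have h4 : β0 < β := h3
      refine ⟨h4, stab_closed (by linarith) ?_⟩
      exact (mem_closure_iff_frequently.1 h2).mono fun x hx => hx.2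
  exact fun β hβ => (h1 hβ).2

end Pool.Agent.H20Rob
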