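import Pool.Agent.P.MP_e3b298_an.H20Der

set_option autoImplicit false

namespace Pool.Agent.H20Rob

open Finset PowerSeries Filter Topology

variable {κ : Type*} [Fintype κ]

lemma re_half {a b : ℂ} (ha : ‖a‖ = 1) (hb : ‖b‖ = 1) (hab : a ≠ b) : (b / (b - a)).re = 1 / 2 := by
  have h1 : Complex.normSq (b - a) ≠ 0 := by
    simpa [sub_eq_zero] using hab.symm
  have h2 : a.re ^ 2 + a.im ^ 2 = 1 := by
    have := Complex.sq_norm a; rw [ha, Complex.normSq_apply] at this; linarith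
  have h3 : b.re ^ 2 + b.im ^ 2 = 1 := by
    have := Complex.sq_norm b; rw [hb, Complex.normSq_apply] at this; linarith
  rw [Complex.div_re, ← add_div, div_eq_iff h1, Complex.normSq_apply]
  simp only [Complex.sub_re, Complex.sub_im]
  linarith

lemma ray {n : ℕ} {μ : κ → ℝ} {o : κ} (hS : St n μ o) {u : κ → ℂ} (hu : ∀ i, ‖u i‖ = 1)
    (ho : u o = 1) (h0 : coeff n (HH μ u) = 0) (hn : 1 ≤ n) (hM : (n : ℝ) ≤ ∑ i, μ i) :
    (μ o : ℂ) * P1 n μ u (u o) ≠ 0 ∧ ∃ x : κ → ℝ, (∀ i, (μ i : ℂ) * P1 n μ u (u i) =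
      -(x i : ℂ) * ((μ o : ℂ) * P1 n μ u (u o))) ∧ (∀ i, i ≠ o → 0 ≤ x i) ∧ x o = -1 ∧
      ∑ i, x i = 0 := by
  classical
  set E : κ → ℂ := fun i => (μ i : ℂ) * P1 n μ u (u i) with hE
  have hsum : ∑ i, E i = 0 := by
    have := sum_P1 n μ u
    rwa [h0, mul_zero] at this
  have hsum' : ∑ i ∈ univ.erase o, E i = -E o := by
    rw [← add_sum_erase _ _ (mem_univ o)] at hsum
    linear_combination hsum
  have hu0 : ∀ i, u i ≠ 0 := fun i h => by simpa [h] using hu i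
  obtain ⟨j, hj, hEj⟩ : ∃ j, j ≠ o ∧ E j ≠ 0 := by
    by_contra hcon
    push Not at hcon
    apply not_all_zero n hn μ u hu0 hM
    intro i
    by_cases hi : i = o
    · rw [sum_eq_zero fun k hk => hcon k (mem_erase.1 hk).1] at hsum'
      rw [hi]
      exact neg_eq_zero.1 hsum'.symm
    · exact hcon i hi
  have key : ∀ (i : κ) (a b : ℂ), i ≠ o → 0 < a.re → 0 < b.re →
      b * E i + a * (-E o - E i) ≠ 0 := by
    intro i a b hi ha hb hz
    apply stab_first hS hu ho h0 j hj hEj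
      (fun k => if k = o then 0 else if k = i then -b else -a) (by simp)
    · intro k hk
      simp only [if_neg hk]
      split_ifs <;> simpa
    · rw [D1, ← add_sum_erase _ _ (mem_univ o),
        ← add_sum_erase _ _ (mem_erase.2 ⟨hi, mem_univ i⟩)]
      rw [← add_sum_erase _ _ (mem_erase.2 ⟨hi, mem_univ i⟩)] at hsum'
      have h2 : ∑ k ∈ (univ.erase o).erase i,
          (if k = o then 0 else if k = i then -b else -a) * ((μ k : ℂ) * P1 n μ u (u k))
          = -a * ∑ k ∈ (univ.erase o).erase i, E k := by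
        rw [mul_sum]
        refine sum_congr rfl fun k hk => ?_
        rw [if_neg (mem_erase.1 (mem_erase.1 hk).2).1, if_neg (mem_erase.1 hk).1]
      rw [h2]
      simp only [if_true, if_neg hi]
      change 0 * E o + (-b * E i + _) = 0
      linear_combination -hz - a * hsum'
  have hEo : E o ≠ 0 := by
    intro h
    apply key j 1 1 hj (by simp) (by simp)
    rw [h]; ring
  have hreal : ∀ i, i ≠ o → (-E i / E o).im = 0 ∧ 0 ≤ (-E i / E o).re := by
    intro i hi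
    set z := -E i / E o with hz
    have hz' : E i = -z * E o := by rw [hz]; field_simp
    have him : z.im = 0 := by
      by_contra him
      have hp : 0 < z.im ^ 2 := by positivity
      apply key i (z * (-Complex.I * z.im)) ((z - 1) * (-Complex.I * z.im)) hi
      · simp; nlinarith
      · simp; nlinarith
      · rw [hz']; ring
    refine ⟨him, ?_⟩
    by_contra hre
    push Not at hre
    apply key i (-z) (1 - z) hi
    · simpa using hre
    · simp; linarith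
    · rw [hz']; ring
  have hx : ∀ i, E i = -(((-E i / E o).re : ℝ) : ℂ) * E o := by
    intro i
    by_cases hi : i = o
    · subst hi
      rw [neg_div, div_self hEo]; simp
    · have h1 : (((-E i / E o).re : ℝ) : ℂ) = -E i / E o := by
        apply Complex.ext
        · simp only [Complex.ofReal_re]
        · rw [(hreal i hi).1]; simp
      rw [h1]; field_simp
  refine ⟨hEo, fun i => (-E i / E o).re, hx, fun i hi => (hreal i hi).2, ?_, ?_⟩
  · simp only
    rw [neg_div, div_self hEo]; simp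
  · rw [← Complex.re_sum, ← sum_div, sum_neg_distrib, hsum]; simp

lemma QQ_eq (n : ℕ) (μ : κ → ℝ) (u τ : κ → ℂ) :
    QQ n μ u τ = ∑ i, ∑ j, (μ i : ℂ) * μ j * (τ i * τ j - τ i ^ 2) * P2 n μ u (u i) (u j)
      + n * ∑ i, τ i ^ 2 * ((μ i : ℂ) * P1 n μ u (u i)) := by
  rw [QQ, mul_sum, ← sum_add_distrib, ← sum_add_distrib]
  refine sum_congr rfl fun i _ => ?_
  have h := P1_homog n μ u (u i)
  have h2 : ∑ j, (μ i : ℂ) * μ j * (τ i * τ j - τ i ^ 2) * P2 n μ u (u i) (u j) =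
      ∑ j, (μ i : ℂ) * μ j * τ i * τ j * P2 n μ u (u i) (u j)
        - μ i * τ i ^ 2 * ∑ j, (μ j : ℂ) * P2 n μ u (u i) (u j) := by
    rw [mul_sum, ← sum_sub_distrib]
    refine sum_congr rfl fun j _ => by ring
  rw [h2]
  linear_combination (-(μ i : ℂ) * τ i ^ 2) * h

lemma re_QQ (n : ℕ) (μ : κ → ℝ) (u : κ → ℂ) (hu : ∀ i, ‖u i‖ = 1) (e : ℂ) (he : e ≠ 0)
    (x : κ → ℝ) (hx : ∀ i, (μ i : ℂ) * P1 n μ u (u i) = -(x i : ℂ) * e) (hs : ∑ i, x i = 0)
    (τ : κ → ℝ) (hτ : ∀ i j, u i = u j → τ i = τ j) (hτx : ∑ i, x i * τ i = 0) :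
    (QQ n μ u (fun i => (τ i : ℂ)) / e).re = ((∑ i, μ i) / 2 - n) * ∑ i, x i * τ i ^ 2 := by
  have h1 : ∀ i j, ((μ i : ℂ) * μ j * ((τ i : ℂ) * τ j - (τ i : ℂ) ^ 2) * P2 n μ u (u i) (u j)
      / e).re = -((μ j * x i + μ i * x j) / 2 * (τ i * τ j - τ i ^ 2)) := by
    intro i j
    by_cases hij : u i = u j
    · rw [← hτ i j hij]; simp [sq]
    · have h2 := P2_epd n μ u (u i) (u j)
      have h3 : u j - u i ≠ 0 := sub_ne_zero.2 (Ne.symm hij)
      have h3' : u i - u j ≠ 0 := sub_ne_zero.2 hij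
      have h4 : (μ i : ℂ) * μ j * ((τ i : ℂ) * τ j - (τ i : ℂ) ^ 2) * P2 n μ u (u i) (u j) / e
          = ((-(τ i * τ j - τ i ^ 2) * μ j * x i : ℝ) : ℂ) * (u j / (u j - u i))
            + ((-(τ i * τ j - τ i ^ 2) * μ i * x j : ℝ) : ℂ) * (u i / (u i - u j)) := by
        have h5 : (μ i : ℂ) * μ j * P2 n μ u (u i) (u j) * (u j - u i)
            = (-(μ j * x i * u j) + μ i * x j * u i) * e := by
          linear_combination (μ i : ℂ) * μ j * h2 + (μ j * u j) * hx i - (μ i * u i) * hx j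
        have h6 : (μ i : ℂ) * μ j * P2 n μ u (u i) (u j)
            = (-(μ j * x i * u j) + μ i * x j * u i) * e / (u j - u i) := by
          rw [eq_div_iff h3]; exact h5
        have h7 : u i / (u i - u j) = -(u i / (u j - u i)) := by
          field_simp; ring
        rw [mul_right_comm, h6, h7]
        push_cast
        field_simp
      rw [h4, Complex.add_re, Complex.re_ofReal_mul, Complex.re_ofReal_mul,
        re_half (hu i) (hu j) hij, re_half (hu j) (hu i) (Ne.symm hij)]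
      ring
  have h2 : ((n : ℂ) * ∑ i, (τ i : ℂ) ^ 2 * ((μ i : ℂ) * P1 n μ u (u i))) / e
      = ((-(n * ∑ i, x i * τ i ^ 2) : ℝ) : ℂ) := by
    rw [div_eq_iff he]
    push_cast
    simp only [hx, neg_mul, mul_sum, sum_mul, ← sum_neg_distrib]
    refine sum_congr rfl fun i _ => by ring
  rw [QQ_eq, add_div, Complex.add_re, h2, Complex.ofReal_re, sum_div, Complex.re_sum]
  simp only [sum_div, Complex.re_sum, h1]
  have h3 : ∑ i, ∑ j, -((μ j * x i + μ i * x j) / 2 * (τ i * τ j - τ i ^ 2)) =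
      -((∑ i, x i * τ i) * (∑ j, μ j * τ j)) / 2 - (∑ i, μ i * τ i) * (∑ j, x j * τ j) / 2
        + (∑ i, x i * τ i ^ 2) * (∑ j, μ j) / 2 + (∑ i, μ i * τ i ^ 2) * (∑ j, x j) / 2 := by
    simp only [sum_mul_sum, sum_div, ← sum_neg_distrib, ← sum_sub_distrib, ← sum_add_distrib]
    refine sum_congr rfl fun i _ => sum_congr rfl fun j _ => by ring
  rw [h3, hs, hτx, ← sum_div]
  ring

lemma QQ_smul (n : ℕ) (μ : κ → ℝ) (u τ : κ → ℂ) (ω : ℂ) :
    QQ n μ u (fun i => ω * τ i) = ω ^ 2 * QQ n μ u τ := by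
  simp only [QQ, mul_add, mul_sum]
  congr 1
  · refine sum_congr rfl fun i _ => sum_congr rfl fun j _ => by ring
  · refine sum_congr rfl fun i _ => by ring

lemma D1_smul (n : ℕ) (μ : κ → ℝ) (u τ : κ → ℂ) (ω : ℂ) :
    D1 n μ u (fun i => ω * τ i) = ω * D1 n μ u τ := by
  simp only [D1, mul_sum]
  refine sum_congr rfl fun i _ => by ring

lemma block_zero [DecidableEq κ] {n : ℕ} {μ : κ → ℝ} {o : κ} (hS : St n μ o) {u : κ → ℂ}
    (hu : ∀ i, ‖u i‖ = 1) (ho : u o = 1) (h0 : coeff n (HH μ u) = 0)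
    (hE : (μ o : ℂ) * P1 n μ u (u o) ≠ 0) (ζ : ℂ) (hζ : ζ ≠ 1) (hP : P1 n μ u ζ = 0)
    (B : Finset κ) (hB : ∀ i ∈ B, u i = ζ) :
    ((∑ i ∈ B, μ i : ℝ) : ℂ) * (((∑ i ∈ B, μ i : ℝ) : ℂ) - 1) * P2 n μ u ζ ζ = 0 := by
  set τ : κ → ℂ := fun i => if i ∈ B then 1 else 0 with hτ
  have hoB : o ∉ B := fun h => hζ ((hB o h).symm.trans ho)
  have hD : D1 n μ u τ = 0 := by
    refine sum_eq_zero fun i _ => ?_
    by_cases hi : i ∈ B
    · rw [hB i hi, hP]; simp
    · simp [hτ, hi]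
  have hQ : QQ n μ u τ =
      ((∑ i ∈ B, μ i : ℝ) : ℂ) * (((∑ i ∈ B, μ i : ℝ) : ℂ) - 1) * P2 n μ u ζ ζ := by
    have h1 : ∀ i j, (μ i : ℂ) * μ j * τ i * τ j * P2 n μ u (u i) (u j)
        = (if i ∈ B then (μ i : ℂ) else 0) * (if j ∈ B then (μ j : ℂ) else 0) * P2 n μ u ζ ζ := by
      intro i j
      by_cases hi : i ∈ B <;> by_cases hj : j ∈ B <;> simp [hτ, hi, hj]
      rw [hB i hi, hB j hj]; simp
    have h2 : ∀ i, (μ i : ℂ) * τ i ^ 2 * (P1 n μ u (u i) - P2 n μ u (u i) (u i))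
        = -((if i ∈ B then (μ i : ℂ) else 0) * P2 n μ u ζ ζ) := by
      intro i
      by_cases hi : i ∈ B <;> simp [hτ, hi]
      rw [hB i hi, hP]; simp
    simp only [QQ, h1, h2, ← sum_mul, ← mul_sum, sum_neg_distrib, sum_ite_mem, univ_inter]
    push_cast
    ring
  rw [← hQ]
  by_contra hne
  obtain ⟨ω, hω⟩ : ∃ ω : ℂ, ω ^ 2 = -((μ o : ℂ) * P1 n μ u (u o)) / QQ n μ u τ :=
    IsAlgClosed.exists_pow_nat_eq _ two_pos
  have key : ∀ ω' : ℂ, ω' ^ 2 = ω ^ 2 → ω'.re ≤ 0 → False := by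
    intro ω' h1 h2
    have h3 := stab_second hS hu ho h0 hE (fun i => ω' * τ i) (by simp [hτ, hoB])
      (fun i => by by_cases hi : i ∈ B <;> simp [hτ, hi, h2]) (by rw [D1_smul, hD, mul_zero])
    rw [QQ_smul, h1, hω, div_mul_cancel₀ _ hne, neg_div, div_self hE] at h3
    norm_num at h3
  rcases le_total ω.re 0 with h | h
  · exact key ω rfl h
  · exact key (-ω) (by ring) (by simpa using h)

end Pool.Agent.H20Rob
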