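import Pool.Agent.P.MP_e3b298_an.H20Core

set_option autoImplicit false

namespace Pool.Agent.H20Rob

open Finset PowerSeries Filter Topology

variable {κ : Type*} [Fintype κ]

lemma merge_prod (s : Finset κ) (μ : κ → ℝ) (v : κ → ℂ) (p w : ℂ)
    (h1 : ∀ i ∈ s, μ i < 0 → v i = p) (h2 : ∀ i ∈ s, 0 < μ i → v i = w) :
    ∏ i ∈ s, bin (μ i) (v i) =
      bin (-∑ i ∈ s, max (-μ i) 0) p * bin (∑ i ∈ s, max (μ i) 0) w := by
  rw [← sum_neg_distrib, bin_sum, bin_sum, ← prod_mul_distrib]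
  refine prod_congr rfl fun i hi => ?_
  rcases lt_trichotomy (μ i) 0 with h | h | h
  · rw [max_eq_left (by linarith), max_eq_right h.le, neg_neg, bin_zero, h1 i hi h, mul_one]
  · simp [h, bin_zero]
  · rw [max_eq_right (by linarith), max_eq_left h.le, neg_zero, bin_zero, h2 i hi h, one_mul]

theorem core [DecidableEq κ] {n : ℕ} {μ : κ → ℝ} {o : κ} (hS : St n μ o) {u : κ → ℂ}
    (hu : ∀ i, ‖u i‖ = 1) (ho : u o = 1) (h0 : coeff n (HH μ u) = 0) (hn : 1 ≤ n)
    {α γ : ℝ} (hα : ∑ i ∈ univ.erase o, max (μ i) 0 = α)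
    (hγ : ∑ i ∈ univ.erase o, max (-μ i) 0 = γ) (hα0 : 0 < α) (hγo : γ < μ o)
    (hM : 2 * (n : ℝ) < ∑ i, μ i) :
    ∃ ζ : ℂ, ‖ζ‖ = 1 ∧ ζ ≠ 1 ∧ coeff n (bin (μ o - γ) 1 * bin α ζ) = 0 := by
  have hn0 : (0 : ℝ) ≤ n := Nat.cast_nonneg n
  obtain ⟨he, x, hx, hx0, hxo, hxs⟩ := ray hS hu ho h0 hn (by linarith)
  set e := (μ o : ℂ) * P1 n μ u (u o) with hedef
  have hγ0 : 0 ≤ γ := hγ ▸ sum_nonneg fun i _ => le_max_right _ _
  have hμo : 0 < μ o := by linarith
  have hsame : ∀ i j, u i = u j → μ j * x i = μ i * x j := by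
    intro i j hij
    have h1 := hx i
    have h2 := hx j
    rw [← hij] at h2
    have h3 : ((μ j * x i : ℝ) : ℂ) = ((μ i * x j : ℝ) : ℂ) := by
      apply mul_right_cancel₀ he
      push_cast
      linear_combination (μ j : ℂ) * h1 - (μ i : ℂ) * h2
    exact_mod_cast h3
  have hne : ∀ i, u i ≠ 1 → i ≠ o := fun i h hi => h (hi ▸ ho)
  have hone : ∀ i, u i = 1 → μ o * x i = -μ i := by
    intro i hi
    rw [hsame i o (hi.trans ho.symm), hxo]; ring
  obtain ⟨i1, hi1, hx1⟩ : ∃ i, u i ≠ 1 ∧ 0 < x i := by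
    by_contra hcon
    push Not at hcon
    have h1 : ∑ i, μ o * x i = 0 := by rw [← mul_sum, hxs, mul_zero]
    rw [← add_sum_erase _ _ (mem_univ o), hxo] at h1
    have h2 : ∑ i ∈ univ.erase o, μ o * x i ≤ γ := by
      rw [← hγ]
      refine sum_le_sum fun i _ => ?_
      by_cases hi : u i = 1
      · rw [hone i hi]; exact le_max_left _ _
      · exact le_trans (mul_nonpos_of_nonneg_of_nonpos hμo.le (hcon i hi)) (le_max_right _ _)
    linarith
  set ζ1 := u i1 with hζ1
  set XX : ℂ → ℝ := fun ζ => ∑ i, if u i = ζ then x i else 0 with hXX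
  have hXpos : ∀ i, u i ≠ 1 → 0 < x i → 0 < XX (u i) := by
    intro i hi hxi
    apply sum_pos'
    · intro k _
      split_ifs with hk
      · exact hx0 k (hne k (hk ▸ hi))
      · exact le_rfl
    · exact ⟨i, mem_univ i, by simpa using hxi⟩
  have hX1 := hXpos i1 hi1 hx1
  have hzero : ∀ i, u i ≠ 1 → u i ≠ ζ1 → x i = 0 := by
    intro i2 h21 h22
    by_contra hcon
    have hx2 : 0 < x i2 := lt_of_le_of_ne (hx0 i2 (hne i2 h21)) (Ne.symm hcon)
    have hX2 := hXpos i2 h21 hx2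
    set ζ2 := u i2 with hζ2
    set τ : κ → ℝ := fun i => if u i = ζ1 then XX ζ2 else if u i = ζ2 then -XX ζ1 else 0 with hτ
    have hτ1 : ∑ i, x i * τ i = 0 := by
      have : ∀ i, x i * τ i = XX ζ2 * (if u i = ζ1 then x i else 0)
          - XX ζ1 * (if u i = ζ2 then x i else 0) := by
        intro i
        by_cases h1 : u i = ζ1
        · have h2 : u i ≠ ζ2 := fun h => h22 (h.symm.trans h1)
          simp only [hτ, if_pos h1, if_neg h2]; ring
        · by_cases h2 : u i = ζ2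
          · simp only [hτ, if_neg h1, if_pos h2]; ring
          · simp only [hτ, if_neg h1, if_neg h2]; ring
      simp only [this, sum_sub_distrib, ← mul_sum]
      change XX ζ2 * XX ζ1 - XX ζ1 * XX ζ2 = 0
      ring
    have hτ2 : ∑ i, x i * τ i ^ 2 = XX ζ2 ^ 2 * XX ζ1 + XX ζ1 ^ 2 * XX ζ2 := by
      have : ∀ i, x i * τ i ^ 2 = XX ζ2 ^ 2 * (if u i = ζ1 then x i else 0)
          + XX ζ1 ^ 2 * (if u i = ζ2 then x i else 0) := by
        intro i
        by_cases h1 : u i = ζ1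
        · have h2 : u i ≠ ζ2 := fun h => h22 (h.symm.trans h1)
          simp only [hτ, if_pos h1, if_neg h2]; ring
        · by_cases h2 : u i = ζ2
          · simp only [hτ, if_neg h1, if_pos h2]; ring
          · simp only [hτ, if_neg h1, if_neg h2]; ring
      simp only [this, sum_add_distrib, ← mul_sum]
      rfl
    have h3 := re_QQ n μ u hu e he x hx hxs τ (fun i j hij => by simp only [hτ, hij]) hτ1
    have h4 := stab_second hS hu ho h0 he (fun i => Complex.I * (τ i : ℂ))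
      (by
        have h5 : u o ≠ ζ1 := fun h => hi1 (h.symm.trans ho)
        have h6 : u o ≠ ζ2 := fun h => h21 (h.symm.trans ho)
        simp only [hτ, if_neg h5, if_neg h6]; simp)
      (fun i => by simp)
      (by
        rw [D1_smul, D1]
        have h5 : ∑ i, (τ i : ℂ) * ((μ i : ℂ) * P1 n μ u (u i))
            = -((∑ i, x i * τ i : ℝ) : ℂ) * e := by
          push_cast
          rw [neg_mul, sum_mul, ← sum_neg_distrib]
          refine sum_congr rfl fun i _ => by rw [hx i]; ring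
        rw [h5, hτ1]; simp)
    rw [QQ_smul, Complex.I_sq, neg_one_mul, neg_div, Complex.neg_re, ← hedef, h3, hτ2] at h4
    have h7 : 0 < ((∑ i, μ i) / 2 - n) * (XX ζ2 ^ 2 * XX ζ1 + XX ζ1 ^ 2 * XX ζ2) := by
      apply mul_pos (by linarith); positivity
    linarith
  have hXone : XX 1 = -XX ζ1 := by
    have : ∀ i, x i = (if u i = 1 then x i else 0) + (if u i = ζ1 then x i else 0) := by
      intro i
      by_cases h1 : u i = 1
      · have h2 : u i ≠ ζ1 := fun h => hi1 (h.symm.trans h1)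
        simp only [if_pos h1, if_neg h2, add_zero]
      · by_cases h2 : u i = ζ1
        · simp only [if_neg h1, if_pos h2, zero_add]
        · simp only [if_neg h1, if_neg h2, add_zero, hzero i h1 h2]
    rw [sum_congr rfl fun i _ => this i, sum_add_distrib] at hxs
    change XX 1 + XX ζ1 = 0 at hxs
    linarith
  have hmu : ∀ i, u i ≠ 1 → u i ≠ ζ1 → μ i = 0 := by
    intro j hj1 hj2
    by_contra hcon
    set ζ := u j with hζ
    have hP : P1 n μ u ζ = 0 := by
      have h1 := hx j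
      rw [hzero j hj1 hj2] at h1
      have h2 : (μ j : ℂ) ≠ 0 := by exact_mod_cast hcon
      simpa [h2] using h1
    have hζ0 : ζ ≠ 0 := fun h => by simpa [← hζ, h] using hu j
    set B : Finset κ := univ.filter fun i => u i = ζ with hB
    have a1 : ζ1 - ζ ≠ 0 := sub_ne_zero.2 (Ne.symm hj2)
    have a2 : 1 - ζ ≠ 0 := sub_ne_zero.2 (Ne.symm hj1)
    have a3 : 1 - ζ1 ≠ 0 := sub_ne_zero.2 (Ne.symm hi1)
    have h1 := P1_homog n μ u ζ
    have h2 : ∀ i, (μ i : ℂ) * P2 n μ u ζ (u i) =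
        ((if u i = ζ then μ i else 0 : ℝ) : ℂ) * P2 n μ u ζ ζ
        + ((if u i = ζ1 then x i else 0 : ℝ) : ℂ) * (ζ * e / (ζ1 - ζ))
        + ((if u i = 1 then x i else 0 : ℝ) : ℂ) * (ζ * e / (1 - ζ)) := by
      intro i
      have h3 := P2_epd n μ u ζ (u i)
      have h4 := hx i
      rw [hP] at h3
      by_cases c0 : u i = ζ
      · have c1 : u i ≠ ζ1 := fun h => hj2 (c0.symm.trans h)
        have c2 : u i ≠ 1 := fun h => hj1 (c0.symm.trans h)
        rw [if_pos c0, if_neg c1, if_neg c2, c0]; simp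
      · have a4 : u i - ζ ≠ 0 := sub_ne_zero.2 c0
        have h5 : (μ i : ℂ) * P2 n μ u ζ (u i) = x i * (ζ * e / (u i - ζ)) := by
          field_simp
          linear_combination (μ i : ℂ) * h3 - ζ * h4
        rw [h5, if_neg c0]
        by_cases c1 : u i = ζ1
        · have c2 : u i ≠ 1 := fun h => hi1 (c1.symm.trans h)
          rw [if_pos c1, if_neg c2, c1]; simp
        · by_cases c2 : u i = 1
          · rw [if_neg c1, if_pos c2, c2]; simp
          · rw [if_neg c1, if_neg c2, hzero i c2 c1]; simp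
    simp only [h2, sum_add_distrib, ← sum_mul, ← Complex.ofReal_sum] at h1
    change _ = _ + (_ + (XX ζ1 : ℂ) * _ + (XX 1 : ℂ) * _) at h1
    rw [hP, hXone, ← sum_filter, ← hB] at h1
    have h6 : (((∑ i ∈ B, μ i : ℝ) : ℂ) - 1) * P2 n μ u ζ ζ ≠ 0 := by
      intro h7
      have h8 : (XX ζ1 : ℂ) * (ζ * e * (1 - ζ1) / ((ζ1 - ζ) * (1 - ζ))) = 0 := by
        have : ζ * e * (1 - ζ1) / ((ζ1 - ζ) * (1 - ζ)) = ζ * e / (ζ1 - ζ) - ζ * e / (1 - ζ) := by
          field_simp; ring
        rw [this]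
        push_cast at h1 h7 ⊢
        linear_combination -h1 - h7
      have h9 : (XX ζ1 : ℂ) ≠ 0 := by exact_mod_cast hX1.ne'
      simp [h9, hζ0, he, a1, a2, a3] at h8
    by_cases hneg : ∃ i ∈ B, μ i < 0
    · obtain ⟨i, hiB, hi⟩ := hneg
      have h7 := block_zero hS hu ho h0 he ζ hj1 hP {i}
        (fun k hk => by rw [mem_singleton.1 hk]; exact (mem_filter.1 hiB).2)
      rw [sum_singleton] at h7
      have b1 : (μ i : ℂ) ≠ 0 := by exact_mod_cast hi.ne
      have b2 : (μ i : ℂ) - 1 ≠ 0 := by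
        have : μ i - 1 ≠ 0 := by linarith
        exact_mod_cast this
      exact right_ne_zero_of_mul h6 (by simpa [b1, b2] using h7)
    · push Not at hneg
      have h7 := block_zero hS hu ho h0 he ζ hj1 hP B (fun k hk => (mem_filter.1 hk).2)
      have hjB : j ∈ B := mem_filter.2 ⟨mem_univ j, rfl⟩
      have b1 : 0 < ∑ i ∈ B, μ i :=
        sum_pos' hneg ⟨j, hjB, lt_of_le_of_ne (hneg j hjB) (Ne.symm hcon)⟩
      have b2 : ((∑ i ∈ B, μ i : ℝ) : ℂ) ≠ 0 := by exact_mod_cast b1.ne'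
      rw [mul_assoc] at h7
      exact h6 ((mul_eq_zero.1 h7).resolve_left b2)
  have hposζ : ∀ i ∈ univ.erase o, 0 < μ i → u i = ζ1 := by
    intro i hi hμ
    by_contra hc
    by_cases h1 : u i = 1
    · have h2 := hone i h1
      have h3 := hx0 i (mem_erase.1 hi).1
      nlinarith
    · exact hμ.ne' (hmu i h1 hc)
  have hμ1 : μ i1 ≠ 0 := by
    intro h
    have h1 := hx i1
    rw [h] at h1
    have h2 : (x i1 : ℂ) ≠ 0 := by exact_mod_cast hx1.ne'
    simp [h2, he] at h1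
  have hμ1' : 0 < μ i1 := by
    obtain ⟨k, hk, hk0⟩ : ∃ k ∈ univ.erase o, 0 < μ k := by
      by_contra hc
      push Not at hc
      rw [sum_eq_zero fun k hk => max_eq_right (hc k hk)] at hα
      linarith
    have h1 := hsame k i1 (hposζ k hk hk0)
    have h2 := hx0 k (mem_erase.1 hk).1
    by_contra hc
    push Not at hc
    nlinarith [mul_pos hk0 hx1]
  have hnegζ : ∀ i ∈ univ.erase o, μ i < 0 → u i = 1 := by
    intro i hi hμ
    by_contra hc
    by_cases h1 : u i = ζ1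
    · have h2 := hsame i i1 h1
      have h3 := hx0 i (mem_erase.1 hi).1
      nlinarith [mul_pos (neg_pos.2 hμ) hx1]
    · exact hμ.ne (hmu i hc h1)
  refine ⟨ζ1, hu i1, hi1, ?_⟩
  rw [HH, ← mul_prod_erase _ _ (mem_univ o), merge_prod _ μ u 1 ζ1 hnegζ hposζ, hα, hγ, ho,
    ← mul_assoc, ← bin_add, ← sub_eq_add_neg] at h0
  exact h0

end Pool.Agent.H20Rob
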