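import Mathlib

set_option autoImplicit false

namespace Pool.Agent.H20Rob

open Finset

/-- The Taylor series of `(1 + u z)^a` at `z = 0` (real exponent `a`). -/
noncomputable def bin (a : ℝ) (u : ℂ) : PowerSeries ℂ :=
  PowerSeries.mk fun k => ((Ring.choose a k : ℝ) : ℂ) * u ^ k

/-- The coefficient `c_{n,k}(β)` of the polynomial `P_n^β`. -/
noncomputable def rc (n : ℕ) (β : ℝ) (k : ℕ) : ℝ :=
  (n.descFactorial k : ℝ) / (ascPochhammer ℝ k).eval (β + (n : ℝ))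

/-- The Hadamard product of `P_n^β` with the power series `g`, evaluated at `z`. -/
noncomputable def had (n : ℕ) (β : ℝ) (g : PowerSeries ℂ) (z : ℂ) : ℂ :=
  ∑ k ∈ range (n + 1), (rc n β k : ℂ) * PowerSeries.coeff k g * z ^ k

/-- `P_n^β ∈ T(α,γ)`: test kernels `(1+xz)^⌊α⌋ (1+yz)^(α-⌊α⌋) (1-z)^(-γ)`, `|x| = |y| = 1`. -/
def InT (n : ℕ) (β α γ : ℝ) : Prop :=
  ∀ x y z : ℂ, ‖x‖ = 1 → ‖y‖ = 1 → ‖z‖ < 1 →
    had n β (bin (⌊α⌋₊ : ℝ) x * bin (α - (⌊α⌋₊ : ℝ)) y * bin (-γ) (-1)) z ≠ 0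

/-- The same for every kernel `∏ (1 + x_i z)^(μ_i)`, `|x_i| ≤ 1`, whose positive exponents add up
to `α` and whose negative exponents add up to `-γ`. -/
def InTAll (n : ℕ) (β α γ : ℝ) : Prop :=
  ∀ (r : ℕ) (μ : Fin r → ℝ) (x : Fin r → ℂ) (z : ℂ),
    ∑ i, max (μ i) 0 = α → ∑ i, max (-μ i) 0 = γ → (∀ i, ‖x i‖ ≤ 1) → ‖z‖ < 1 →
    had n β (∏ i, bin (μ i) (x i)) z ≠ 0

/-- The coefficient of `w^n` in `(1-w)^α (1+w)^(2n+s-1)`, a polynomial of degree `n` in `s`. -/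
noncomputable def kraw (n : ℕ) (α s : ℝ) : ℝ :=
  ∑ j ∈ range (n + 1), (-1) ^ j * Ring.choose α j * Ring.choose (2 * (n : ℝ) + s - 1) (n - j)

end Pool.Agent.H20Rob
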