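import Mathlib

set_option autoImplicit false

namespace Pool.Agent.H20Rob

open Filter Topology Metric Set

lemma min_mod (h : ℂ → ℂ) (hd : Differentiable ℂ h) (c : ℂ) (r : ℝ) (hr : 0 < r)
    (hs : ∀ σ ∈ sphere c r, ‖h c‖ < ‖h σ‖) : ∃ σ ∈ closedBall c r, h σ = 0 := by
  by_contra hne
  push Not at hne
  have hdc : DiffContOnCl ℂ (fun σ => (h σ)⁻¹) (ball c r) := by
    apply DifferentiableOn.diffContOnCl
    rw [closure_ball c hr.ne']
    exact hd.differentiableOn.inv hne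
  obtain ⟨z, hz, hmax⟩ := Complex.exists_mem_frontier_isMaxOn_norm isBounded_ball
    (nonempty_ball.2 hr) hdc
  rw [frontier_ball c hr.ne'] at hz
  have h1 : ‖(h c)⁻¹‖ ≤ ‖(h z)⁻¹‖ := hmax (subset_closure (mem_ball_self hr))
  have h2 := hs z hz
  have h3 : 0 < ‖h c‖ := norm_pos_iff.2 (hne c (mem_closedBall_self hr.le))
  rw [norm_inv, norm_inv] at h1
  have := (inv_le_inv₀ h3 (h3.trans h2)).1 h1
  linarith

lemma hurwitz {T : Type*} [TopologicalSpace T] (Φ : T → ℂ → ℂ) (t0 : T)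
    (hc : ∀ σ, ContinuousAt (fun p : T × ℂ => Φ p.1 p.2) (t0, σ))
    (hd : ∀ t, Differentiable ℂ (Φ t)) (c : ℂ) (h0 : Φ t0 c = 0) (hne : ∃ w, Φ t0 w ≠ 0)
    (r : ℝ) (hr : 0 < r) : ∀ᶠ t in 𝓝 t0, ∃ σ ∈ closedBall c r, Φ t σ = 0 := by
  have han : AnalyticOnNhd ℂ (Φ t0) univ := fun z _ => (hd t0).analyticAt z
  have h1 : ∀ᶠ z in 𝓝[≠] c, Φ t0 z ≠ 0 := by
    rcases (han c trivial).eventually_eq_zero_or_eventually_ne_zero with h | h
    · obtain ⟨w, hw⟩ := hne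
      exact absurd (han.eqOn_zero_of_preconnected_of_eventuallyEq_zero isPreconnected_univ
        (mem_univ c) h (mem_univ w)) hw
    · exact h
  rw [eventually_nhdsWithin_iff, Metric.eventually_nhds_iff] at h1
  obtain ⟨δ, hδ, h1⟩ := h1
  set ρ := min r (δ / 2) with hρ
  have hρ0 : 0 < ρ := lt_min hr (by linarith)
  have h2 : ∀ᶠ t in 𝓝 t0, ∀ σ ∈ sphere c ρ, ‖Φ t c‖ < ‖Φ t σ‖ := by
    apply (isCompact_sphere c ρ).eventually_forall_of_forall_eventually
    intro σ hσ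
    have hσ' : dist σ c = ρ := hσ
    have h3 : Φ t0 σ ≠ 0 := by
      apply h1
      · rw [hσ']; have := min_le_right r (δ / 2); linarith
      · intro h; rw [mem_singleton_iff] at h; rw [h, dist_self] at hσ'; linarith
    have h4 : ContinuousAt (fun p : T × ℂ => ‖Φ p.1 c‖) (t0, σ) := by
      have : ContinuousAt (fun p : T × ℂ => (p.1, c)) (t0, σ) := by fun_prop
      exact (ContinuousAt.comp (f := fun p : T × ℂ => (p.1, c)) (hc c) this).norm
    apply h4.eventually_lt (hc σ).norm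
    simp [h0, h3]
  filter_upwards [h2] with t ht
  obtain ⟨σ, hσ, h⟩ := min_mod (Φ t) (hd t) c ρ hρ0 ht
  exact ⟨σ, closedBall_subset_closedBall (min_le_left _ _) hσ, h⟩

lemma pert (g : ℂ × ℂ → ℂ) (hg : ContDiff ℂ 1 g) (e c : ℂ) (he : e ≠ 0)
    (hd : HasDerivAt (fun η => g (0, η)) e 0) (ρ : ℝ → ℝ)
    (hρ : Tendsto ρ (𝓝[>] 0) (𝓝 0)) (hρ0 : ∀ t, 0 < t → 0 < ρ t)
    (hc : Tendsto (fun t : ℝ => g ((t : ℂ), 0) / (ρ t : ℂ)) (𝓝[>] 0) (𝓝 c)) (r : ℝ) (hr : 0 < r) :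
    ∃ t : ℝ, 0 < t ∧ ∃ σ ∈ closedBall (-c / e) r, g ((t : ℂ), (ρ t : ℂ) * σ) = 0 := by
  have hs : HasStrictFDerivAt g (fderiv ℂ g (0, 0)) (0, 0) :=
    hg.contDiffAt.hasStrictFDerivAt (by simp)
  set L := fderiv ℂ g (0, 0) with hL
  have hL1 : ∀ η : ℂ, L (0, η) = η * e := by
    have h1 : HasDerivAt (fun η : ℂ => g (0, η)) (L (0, 1)) 0 := by
      have h2 : HasDerivAt (fun η : ℂ => ((0 : ℂ), η)) (0, 1) 0 :=
        (hasDerivAt_const (0 : ℂ) (0 : ℂ)).prodMk (hasDerivAt_id 0)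
      exact hs.hasFDerivAt.comp_hasDerivAt_of_eq 0 h2 rfl
    intro η
    have h3 : ((0 : ℂ), η) = η • ((0 : ℂ), (1 : ℂ)) := by simp
    rw [h3, map_smul, h1.unique hd, smul_eq_mul]
  set R := ‖-c / e‖ + r with hR
  have hR0 : 0 < R := by positivity
  have he0 : 0 < ‖e‖ := norm_pos_iff.2 he
  have hδ : 0 < ‖e‖ * r / 4 / R := by positivity
  have h1 := hs.isLittleO.bound hδ
  rw [Metric.eventually_nhds_iff] at h1
  obtain ⟨δ, hδ0, h1⟩ := h1
  have h2 : ∀ᶠ t : ℝ in 𝓝[>] 0, |t| < δ := by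
    apply nhdsWithin_le_nhds
    have : Tendsto (fun t : ℝ => |t|) (𝓝 0) (𝓝 0) := by
      simpa using (continuous_abs.tendsto (0 : ℝ))
    exact this.eventually_lt_const hδ0
  have h3 : ∀ᶠ t : ℝ in 𝓝[>] 0, ρ t * R < δ := by
    have : Tendsto (fun t => ρ t * R) (𝓝[>] 0) (𝓝 0) := by simpa using hρ.mul_const R
    exact this.eventually_lt_const hδ0
  have h4 : ∀ᶠ t : ℝ in 𝓝[>] 0, ‖g ((t : ℂ), 0) / (ρ t : ℂ) - c‖ < ‖e‖ * r / 4 := by
    have := (tendsto_iff_norm_sub_tendsto_zero.1 hc)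
    exact this.eventually_lt_const (by positivity)
  obtain ⟨t, ⟨⟨ht2, ht3⟩, ht4⟩, ht⟩ := (((h2.and h3).and h4).and self_mem_nhdsWithin).exists
  have ht0 : 0 < t := ht
  have hp := hρ0 t ht0
  have hp' : (ρ t : ℂ) ≠ 0 := by exact_mod_cast hp.ne'
  have key : ∀ σ ∈ closedBall (-c / e) r,
      ‖g ((t : ℂ), (ρ t : ℂ) * σ) / (ρ t : ℂ) - (c + e * σ)‖ < ‖e‖ * r / 2 := by
    intro σ hσ
    have hσR : ‖σ‖ ≤ R := by
      have := norm_le_norm_add_const_of_dist_le hσ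
      simpa [hR] using this
    have hn : ‖(ρ t : ℂ) * σ‖ ≤ ρ t * R := by
      rw [norm_mul, Complex.norm_real, Real.norm_of_nonneg hp.le]; gcongr
    have h5 := @h1 (((t : ℂ), (ρ t : ℂ) * σ), ((t : ℂ), 0)) (by
      simp only [Prod.dist_eq, dist_zero_right, Complex.norm_real, Real.norm_eq_abs, norm_zero,
        max_lt_iff]
      exact ⟨⟨ht2, by linarith⟩, ht2, hδ0⟩)
    simp only [Prod.mk_sub_mk, sub_self, sub_zero, hL1, Prod.norm_def, norm_zero,
      max_eq_right (norm_nonneg _)] at h5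
    have h6 : ‖g ((t : ℂ), (ρ t : ℂ) * σ) - g ((t : ℂ), 0) - (ρ t : ℂ) * σ * e‖
        ≤ ‖e‖ * r / 4 * ρ t := by
      refine h5.trans ?_
      calc ‖e‖ * r / 4 / R * ‖(ρ t : ℂ) * σ‖ ≤ ‖e‖ * r / 4 / R * (ρ t * R) := by gcongr
        _ = ‖e‖ * r / 4 * ρ t := by field_simp
    have h7 : g ((t : ℂ), (ρ t : ℂ) * σ) / (ρ t : ℂ) - (c + e * σ) =
        (g ((t : ℂ), (ρ t : ℂ) * σ) - g ((t : ℂ), 0) - (ρ t : ℂ) * σ * e) / (ρ t : ℂ)
          + (g ((t : ℂ), 0) / (ρ t : ℂ) - c) := by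
      field_simp; ring
    rw [h7]
    refine (norm_add_le _ _).trans_lt ?_
    have h8 : ‖(g ((t : ℂ), (ρ t : ℂ) * σ) - g ((t : ℂ), 0) - (ρ t : ℂ) * σ * e) / (ρ t : ℂ)‖
        ≤ ‖e‖ * r / 4 := by
      rw [norm_div, Complex.norm_real, Real.norm_of_nonneg hp.le, div_le_iff₀ hp]; exact h6
    linarith
  have hdiff : Differentiable ℂ (fun σ : ℂ => g ((t : ℂ), (ρ t : ℂ) * σ) / (ρ t : ℂ)) := by
    have := hg.differentiable (by simp)
    fun_prop
  obtain ⟨σ, hσ, h⟩ := min_mod _ hdiff (-c / e) r hr (by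
    intro σ hσ
    have k1 := key _ (mem_closedBall_self hr.le)
    have k2 := key σ (sphere_subset_closedBall hσ)
    have k3 : c + e * (-c / e) = 0 := by field_simp; ring
    rw [k3, sub_zero] at k1
    have k4 : ‖c + e * σ‖ = ‖e‖ * r := by
      have : c + e * σ = e * (σ - -c / e) := by field_simp; ring
      rw [this, norm_mul, ← dist_eq_norm, mem_sphere.1 hσ]
    have k5 := norm_sub_norm_le (c + e * σ) (g ((t : ℂ), (ρ t : ℂ) * σ) / (ρ t : ℂ))
    rw [norm_sub_rev] at k2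
    linarith)
  exact ⟨t, ht0, σ, hσ, by simpa [hp'] using h⟩

lemma second_limit (φ φ' : ℂ → ℂ) (Q : ℂ) (h1 : ∀ z, HasDerivAt φ (φ' z) z)
    (h2 : HasDerivAt φ' Q 0) (h0 : φ 0 = 0) (h0' : φ' 0 = 0) :
    Tendsto (fun t : ℝ => φ (t : ℂ) / ((t ^ 2 : ℝ) : ℂ)) (𝓝[>] 0) (𝓝 (Q / 2)) := by
  have hd : Differentiable ℂ φ := fun z => (h1 z).differentiableAt
  obtain ⟨F, hF, hφ⟩ := (hd.analyticAt 0).exists_eq_sum_add_pow_mul 3
  have e1 : deriv φ = φ' := funext fun z => (h1 z).deriv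
  have h3 : ∀ z, φ z = z ^ 2 * (Q / 2 + z * F z) := by
    intro z
    rw [hφ z]
    simp only [Finset.sum_range_succ, Finset.sum_range_zero, iteratedDeriv_succ,
      iteratedDeriv_zero, e1, h0, h0', h2.deriv, smul_eq_mul]
    simp [Nat.factorial]; ring
  have h4 : Tendsto (fun t : ℝ => Q / 2 + (t : ℂ) * F (t : ℂ)) (𝓝[>] 0) (𝓝 (Q / 2)) := by
    apply Tendsto.mono_left _ nhdsWithin_le_nhds
    have h5 : ContinuousAt (fun t : ℝ => Q / 2 + (t : ℂ) * F (t : ℂ)) 0 := by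
      have h6 : ContinuousAt (fun t : ℝ => F (t : ℂ)) 0 :=
        ContinuousAt.comp_of_eq hF.continuousAt Complex.continuous_ofReal.continuousAt (by simp)
      exact continuousAt_const.add (Complex.continuous_ofReal.continuousAt.mul h6)
    simpa using h5.tendsto
  refine h4.congr' ?_
  filter_upwards [self_mem_nhdsWithin] with t ht
  have ht0 : (t : ℂ) ≠ 0 := by exact_mod_cast (ne_of_gt ht)
  rw [h3]; push_cast; field_simp

lemma first_limit (φ : ℂ → ℂ) (D : ℂ) (h1 : HasDerivAt φ D 0) (h0 : φ 0 = 0) :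
    Tendsto (fun t : ℝ => φ (t : ℂ) / ((t : ℝ) : ℂ)) (𝓝[>] 0) (𝓝 D) := by
  have h2 := hasDerivAt_iff_tendsto_slope_zero.1 h1
  have h3 : Tendsto (fun t : ℝ => (t : ℂ)) (𝓝[>] 0) (𝓝[≠] 0) := by
    apply tendsto_nhdsWithin_iff.2
    refine ⟨?_, ?_⟩
    · apply Tendsto.mono_left _ nhdsWithin_le_nhds
      simpa using Complex.continuous_ofReal.tendsto 0
    · filter_upwards [self_mem_nhdsWithin] with t ht
      have : (t : ℂ) ≠ 0 := by exact_mod_cast (ne_of_gt ht)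
      exact this
  refine (h2.comp h3).congr fun t => ?_
  simp [h0, div_eq_inv_mul]

lemma torus_zero {ι : Type*} [Fintype ι] (Φ : (ι → ℂ) → ℂ) (hΦ : Differentiable ℂ Φ) (R : ℝ)
    (hR : 0 < R) (hs : ∀ v, (∀ i, ‖v i‖ < R) → Φ v ≠ 0) (v : ι → ℂ) (hv : ∀ i, ‖v i‖ ≤ R)
    (h0 : Φ v = 0) : ∃ w, (∀ i, ‖w i‖ = R) ∧ Φ w = 0 := by
  classical
  have hK : IsCompact (closedBall (0 : ι → ℂ) R ∩ Φ ⁻¹' {0}) :=
    (isCompact_closedBall _ _).inter_right (isClosed_singleton.preimage hΦ.continuous)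
  have hmem : ∀ w : ι → ℂ, w ∈ closedBall (0 : ι → ℂ) R ↔ ∀ i, ‖w i‖ ≤ R := by
    intro w; rw [mem_closedBall_zero_iff, pi_norm_le_iff_of_nonneg hR.le]
  obtain ⟨w, ⟨hw1, hw2⟩, hmax⟩ := hK.exists_isMaxOn ⟨v, (hmem v).2 hv, h0⟩
    (f := fun w => ∑ i, ‖w i‖) (by fun_prop)
  rw [hmem] at hw1
  refine ⟨w, fun j => ?_, hw2⟩
  by_contra hj
  have hj' : ‖w j‖ < R := lt_of_le_of_ne (hw1 j) hj
  by_cases hz : ∃ y, Φ (Function.update w j y) ≠ 0
  · have hcont : Continuous fun p : ℝ × ℂ => Φ (Function.update ((p.1 : ℂ) • w) j p.2) := by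
      apply hΦ.continuous.comp
      apply continuous_pi
      intro i
      by_cases hi : i = j
      · subst hi; simp only [Function.update_self]; fun_prop
      · simp only [Function.update_of_ne hi]; fun_prop
    have h1 := hurwitz (fun (t : ℝ) (y : ℂ) => Φ (Function.update ((t : ℂ) • w) j y)) 1
      (fun σ => hcont.continuousAt) (by
        intro t
        apply hΦ.comp
        apply differentiable_pi.2
        intro i
        by_cases hi : i = j
        · subst hi; simp only [Function.update_self]; fun_prop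
        · simp only [Function.update_of_ne hi]; fun_prop) (w j) (by simpa using hw2)
      (by simpa using hz) ((R - ‖w j‖) / 2) (by linarith)
    have h2 : ∀ᶠ t : ℝ in 𝓝[<] 1, 0 < t := nhdsWithin_le_nhds (lt_mem_nhds one_pos)
    obtain ⟨t, ⟨⟨σ, hσ, h3⟩, ht0⟩, ht1⟩ :=
      (((h1.filter_mono nhdsWithin_le_nhds).and h2).and self_mem_nhdsWithin).exists
    have ht1' : t < 1 := ht1
    refine hs _ (fun i => ?_) h3
    by_cases hi : i = j
    · subst hi
      simp only [Function.update_self]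
      have := norm_le_norm_add_const_of_dist_le hσ
      linarith
    · simp only [Function.update_of_ne hi, Pi.smul_apply, smul_eq_mul, norm_mul, Complex.norm_real,
        Real.norm_of_nonneg ht0.le]
      have := hw1 i
      nlinarith [norm_nonneg (w i)]
  · push Not at hz
    have h1 : Function.update w j (R : ℂ) ∈ closedBall (0 : ι → ℂ) R ∩ Φ ⁻¹' {0} := by
      refine ⟨(hmem _).2 fun i => ?_, hz _⟩
      by_cases hi : i = j
      · subst hi; simp [abs_of_pos hR]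
      · simp only [Function.update_of_ne hi]; exact hw1 i
    have h2 : ∑ i, ‖Function.update w j (R : ℂ) i‖ ≤ ∑ i, ‖w i‖ := hmax h1
    have h3 : ∑ i, ‖w i‖ < ∑ i, ‖Function.update w j (R : ℂ) i‖ := by
      apply Finset.sum_lt_sum
      · intro i _
        by_cases hi : i = j
        · subst hi; simp [abs_of_pos hR, hj'.le]
        · simp only [Function.update_of_ne hi]; exact le_rfl
      · exact ⟨j, Finset.mem_univ j, by simp [abs_of_pos hR, hj']⟩
    linarith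

end Pool.Agent.H20Rob
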