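import Pool.Agent.P.MP_e3b298_an.H20Ser
import Pool.Agent.P.MP_e3b298_an.H20Pert

set_option autoImplicit false

namespace Pool.Agent.H20Rob

open Finset PowerSeries Filter Topology

/-- coefficientwise derivative -/
def CD (S : ℂ → ℂ⟦X⟧) (S' : ℂ⟦X⟧) (e : ℂ) : Prop :=
  ∀ k, HasDerivAt (fun t => coeff k (S t)) (coeff k S') e

lemma CD.mul {S T : ℂ → ℂ⟦X⟧} {S' T' : ℂ⟦X⟧} {e : ℂ} (h1 : CD S S' e) (h2 : CD T T' e) :
    CD (fun t => S t * T t) (S' * T e + S e * T') e := by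
  intro k
  simp only [map_add, coeff_mul, ← sum_add_distrib]
  exact HasDerivAt.fun_sum fun p _ => (h1 p.1).mul (h2 p.2)

lemma CD.add {S T : ℂ → ℂ⟦X⟧} {S' T' : ℂ⟦X⟧} {e : ℂ} (h1 : CD S S' e) (h2 : CD T T' e) :
    CD (fun t => S t + T t) (S' + T') e := by
  intro k
  simp only [map_add]
  exact (h1 k).add (h2 k)

lemma CD.const (S : ℂ⟦X⟧) (e : ℂ) : CD (fun _ => S) 0 e := by
  intro k
  simpa using hasDerivAt_const e (coeff k S)

lemma CD_mono (T : ℂ → ℂ⟦X⟧) (c : ℕ → ℂ) (hT : ∀ u k, coeff k (T u) = c k * u ^ k) (a τ e : ℂ) :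
    CD (fun t => T (a * Complex.exp (t * τ))) (C τ * th (T (a * Complex.exp (e * τ)))) e := by
  intro k
  simp only [hT, coeff_C_mul, coeff_th, mul_pow, ← Complex.exp_nat_mul]
  have h1 : HasDerivAt (fun t : ℂ => (k : ℂ) * (t * τ)) ((k : ℂ) * τ) e := by
    simpa using ((hasDerivAt_id e).mul_const τ).const_mul (k : ℂ)
  refine ((h1.cexp.const_mul (a ^ k)).const_mul (c k)).congr_deriv ?_
  ring

variable {κ : Type*} [Fintype κ]

/-- exponential deformation -/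
noncomputable def ex (u τ : κ → ℂ) (t : ℂ) : κ → ℂ := fun i => u i * Complex.exp (t * τ i)

/-- first variation kernel -/
noncomputable def L1 (μ : κ → ℝ) (τ v : κ → ℂ) : ℂ⟦X⟧ := ∑ i, C ((μ i : ℂ) * τ i) * ps (v i)

/-- second variation kernel -/
noncomputable def L2 (μ : κ → ℝ) (τ v : κ → ℂ) : ℂ⟦X⟧ :=
  ∑ i, C ((μ i : ℂ) * τ i ^ 2) * (ps (v i) * (1 - ps (v i)))

omit [Fintype κ] in
lemma ex_zero (u τ : κ → ℂ) : ex u τ 0 = u := by
  funext i; simp [ex]

omit [Fintype κ] in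
lemma CD_ex (T : ℂ → ℂ⟦X⟧) (c : ℕ → ℂ) (hT : ∀ u k, coeff k (T u) = c k * u ^ k) (u τ : κ → ℂ)
    (e : ℂ) (i : κ) : CD (fun t => T (ex u τ t i)) (C (τ i) * th (T (ex u τ e i))) e :=
  CD_mono T c hT (u i) (τ i) e

lemma CD_HH (μ : κ → ℝ) (u τ : κ → ℂ) (e : ℂ) :
    CD (fun t => HH μ (ex u τ t)) (L1 μ τ (ex u τ e) * HH μ (ex u τ e)) e := by
  classical
  have : ∀ s : Finset κ, CD (fun t => ∏ i ∈ s, bin (μ i) (ex u τ t i))
      ((∑ i ∈ s, C ((μ i : ℂ) * τ i) * ps (ex u τ e i)) * ∏ i ∈ s, bin (μ i) (ex u τ e i)) e := by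
    intro s
    induction s using Finset.induction_on with
    | empty => simpa using CD.const 1 e
    | insert i s hi ih =>
      simp only [sum_insert hi, prod_insert hi]
      have h := (CD_ex (bin (μ i)) _ (coeff_bin (μ i)) u τ e i).mul ih
      rw [th_bin] at h
      convert h using 1
      simp only [map_mul]; ring
  exact this univ

lemma CD_L1 (μ : κ → ℝ) (u τ : κ → ℂ) (e : ℂ) :
    CD (fun t => L1 μ τ (ex u τ t)) (L2 μ τ (ex u τ e)) e := by
  classical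
  have : ∀ s : Finset κ, CD (fun t => ∑ i ∈ s, C ((μ i : ℂ) * τ i) * ps (ex u τ t i))
      (∑ i ∈ s, C ((μ i : ℂ) * τ i ^ 2) * (ps (ex u τ e i) * (1 - ps (ex u τ e i)))) e := by
    intro s
    induction s using Finset.induction_on with
    | empty => simpa using CD.const 0 e
    | insert i s hi ih =>
      simp only [sum_insert hi]
      have h := ((CD.const (C ((μ i : ℂ) * τ i)) e).mul
        (CD_ex ps _ coeff_ps u τ e i)).add ih
      rw [th_ps] at h
      convert h using 2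
      simp only [map_mul, map_pow]; ring
  exact this univ

/-- first variation -/
noncomputable def D1 (n : ℕ) (μ : κ → ℝ) (u τ : κ → ℂ) : ℂ :=
  ∑ i, τ i * ((μ i : ℂ) * P1 n μ u (u i))

/-- second variation -/
noncomputable def QQ (n : ℕ) (μ : κ → ℝ) (u τ : κ → ℂ) : ℂ :=
  ∑ i, ∑ j, (μ i : ℂ) * μ j * τ i * τ j * P2 n μ u (u i) (u j)
    + ∑ i, (μ i : ℂ) * τ i ^ 2 * (P1 n μ u (u i) - P2 n μ u (u i) (u i))

lemma coeff_L1 (n : ℕ) (μ : κ → ℝ) (u τ : κ → ℂ) :
    coeff n (L1 μ τ u * HH μ u) = D1 n μ u τ := by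
  rw [L1, sum_mul, map_sum, D1]
  refine sum_congr rfl fun i _ => ?_
  rw [mul_assoc, coeff_C_mul, P1]; ring

lemma coeff_L2 (n : ℕ) (μ : κ → ℝ) (u τ : κ → ℂ) :
    coeff n (L2 μ τ u * HH μ u + L1 μ τ u * (L1 μ τ u * HH μ u)) = QQ n μ u τ := by
  rw [map_add, QQ, add_comm]
  congr 1
  · rw [← mul_assoc, L1, sum_mul_sum, sum_mul, map_sum]
    refine sum_congr rfl fun i _ => ?_
    rw [sum_mul, map_sum]
    refine sum_congr rfl fun j _ => ?_
    rw [P2, ← coeff_C_mul]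
    congr 1
    simp only [map_mul]; ring
  · rw [L2, sum_mul, map_sum]
    refine sum_congr rfl fun i _ => ?_
    rw [P1, P2, ← map_sub, ← coeff_C_mul]
    congr 1; ring

lemma contDiff_HH (μ : κ → ℝ) (k : ℕ) : ContDiff ℂ 1 fun v : κ → ℂ => coeff k (HH μ v) := by
  classical
  have : ∀ s : Finset κ, ∀ k, ContDiff ℂ 1 fun v : κ → ℂ =>
      coeff k (∏ i ∈ s, bin (μ i) (v i)) := by
    intro s
    induction s using Finset.induction_on with
    | empty => intro k; simp only [prod_empty]; exact contDiff_const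
    | insert i s hi ih =>
      intro k
      simp only [prod_insert hi, coeff_mul, coeff_bin]
      apply ContDiff.sum
      intro p _
      exact (contDiff_const.mul ((contDiff_apply ℂ ℂ i).pow _)).mul (ih p.2)
  exact this univ k

lemma contDiff_two (n : ℕ) (μ : κ → ℝ) (u τ χ : κ → ℂ) : ContDiff ℂ 1 fun p : ℂ × ℂ =>
    coeff n (HH μ fun i => u i * Complex.exp (p.1 * τ i + p.2 * χ i)) := by
  apply (contDiff_HH μ n).comp
  apply contDiff_pi.2
  intro i
  fun_prop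

/-- no zero when all free points are inside the disc -/
def St (n : ℕ) (μ : κ → ℝ) (o : κ) : Prop :=
  ∀ v : κ → ℂ, v o = 1 → (∀ i, i ≠ o → ‖v i‖ < 1) → coeff n (HH μ v) ≠ 0

lemma hasDeriv_dir (n : ℕ) (μ : κ → ℝ) (u τ : κ → ℂ) (e : ℂ) :
    HasDerivAt (fun t => coeff n (HH μ (ex u τ t))) (D1 n μ (ex u τ e) τ) e := by
  rw [← coeff_L1]; exact CD_HH μ u τ e n

lemma hasDeriv_dir2 (n : ℕ) (μ : κ → ℝ) (u τ : κ → ℂ) :
    HasDerivAt (fun t => D1 n μ (ex u τ t) τ) (QQ n μ u τ) 0 := by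
  have h := ((CD_L1 μ u τ 0).mul (CD_HH μ u τ 0)) n
  simp only [coeff_L1, ex_zero, coeff_L2] at h
  exact h

lemma stab_first {n : ℕ} {μ : κ → ℝ} {o : κ} (hS : St n μ o) {u : κ → ℂ} (hu : ∀ i, ‖u i‖ = 1)
    (ho : u o = 1) (h0 : coeff n (HH μ u) = 0) (j : κ) (hj : j ≠ o)
    (hE : (μ j : ℂ) * P1 n μ u (u j) ≠ 0) (τ : κ → ℂ) (hτo : τ o = 0)
    (hτ : ∀ i, i ≠ o → (τ i).re < 0) : D1 n μ u τ ≠ 0 := by
  classical
  intro hD
  set χ : κ → ℂ := Pi.single j 1 with hχ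
  have hDχ : D1 n μ u χ = (μ j : ℂ) * P1 n μ u (u j) := by
    rw [D1, sum_eq_single j]
    · simp [hχ]
    · intro i _ hi; simp [hχ, hi]
    · simp
  have h1 := hasDeriv_dir n μ u χ 0
  have h2 := hasDeriv_dir n μ u τ 0
  rw [ex_zero] at h1 h2
  rw [hDχ] at h1
  rw [hD] at h2
  have h3 := first_limit _ _ h2 (by rw [ex_zero, h0])
  obtain ⟨t, ht, σ, hσ, hz⟩ := pert _ (contDiff_two n μ u τ χ) _ 0 hE
    (by simp only [zero_mul, zero_add]; exact h1) (fun t => t) (tendsto_id.mono_left nhdsWithin_le_nhds)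
    (fun t ht => ht) (by simp only [zero_mul, add_zero]; exact h3) (-(τ j).re / 2) (by have := hτ j hj; linarith)
  refine hS _ (by simp [ho, hτo, hχ, hj.symm]) (fun i hi => ?_) hz
  rw [norm_mul, hu i, one_mul, Complex.norm_exp, Real.exp_lt_one_iff]
  have h4 : σ.re ≤ -(τ j).re / 2 := by
    have : ‖σ‖ ≤ -(τ j).re / 2 := by simpa using hσ
    exact (Complex.re_le_norm σ).trans this
  by_cases hij : i = j
  · subst hij
    have := hτ i hi
    simp [hχ]
    nlinarith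
  · have := hτ i hi
    simp [hχ, hij]
    nlinarith

lemma stab_second {n : ℕ} {μ : κ → ℝ} {o : κ} (hS : St n μ o) {u : κ → ℂ}
    (hu : ∀ i, ‖u i‖ = 1) (ho : u o = 1) (h0 : coeff n (HH μ u) = 0)
    (hE : (μ o : ℂ) * P1 n μ u (u o) ≠ 0) (τ : κ → ℂ) (hτo : τ o = 0)
    (hτ : ∀ i, (τ i).re ≤ 0) (hD : D1 n μ u τ = 0) :
    0 ≤ (QQ n μ u τ / ((μ o : ℂ) * P1 n μ u (u o))).re := by
  classical
  by_contra hneg
  push Not at hneg
  set χ : κ → ℂ := fun i => if i = o then 0 else -1 with hχ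
  have hDχ : D1 n μ u χ = (μ o : ℂ) * P1 n μ u (u o) := by
    have h1 := sum_P1 n μ u
    rw [h0, mul_zero, ← add_sum_erase _ _ (mem_univ o)] at h1
    rw [D1, ← add_sum_erase _ _ (mem_univ o)]
    have h2 : ∑ i ∈ univ.erase o, χ i * ((μ i : ℂ) * P1 n μ u (u i))
        = -∑ i ∈ univ.erase o, (μ i : ℂ) * P1 n μ u (u i) := by
      rw [← sum_neg_distrib]
      refine sum_congr rfl fun i hi => ?_
      simp [hχ, (mem_erase.1 hi).1]
    rw [h2]
    simp only [hχ, if_true]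
    linear_combination -h1
  have h1 := hasDeriv_dir n μ u χ 0
  rw [ex_zero, hDχ] at h1
  have h3 := second_limit _ _ _ (hasDeriv_dir n μ u τ) (hasDeriv_dir2 n μ u τ)
    (by rw [ex_zero, h0]) (by rw [ex_zero, hD])
  set q := QQ n μ u τ / ((μ o : ℂ) * P1 n μ u (u o)) with hq
  obtain ⟨t, ht, σ, hσ, hz⟩ := pert _ (contDiff_two n μ u τ χ) _ (QQ n μ u τ / 2) hE
    (by simp only [zero_mul, zero_add]; exact h1) (fun t => t ^ 2)
    (by
      apply Tendsto.mono_left _ nhdsWithin_le_nhds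
      simpa using (continuous_pow 2).tendsto (0 : ℝ))
    (fun t ht => by positivity) (by simp only [zero_mul, add_zero]; exact h3) (-q.re / 4) (by linarith)
  refine hS _ (by simp [ho, hτo, hχ]) (fun i hi => ?_) hz
  rw [norm_mul, hu i, one_mul, Complex.norm_exp, Real.exp_lt_one_iff]
  have h4 : 0 < σ.re := by
    have h5 : -(QQ n μ u τ / 2) / ((μ o : ℂ) * P1 n μ u (u o)) = -q / 2 := by
      rw [hq]; ring
    rw [h5, Metric.mem_closedBall, dist_eq_norm] at hσ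
    have h6 := (Complex.abs_re_le_norm _).trans hσ
    have h7 := (abs_le.1 h6).1
    simp at h7
    linarith
  have h8 := hτ i
  have h9 : ((t : ℂ) * τ i + ((t ^ 2 : ℝ) : ℂ) * σ * χ i).re = t * (τ i).re - t ^ 2 * σ.re := by
    simp only [hχ, if_neg hi, Complex.add_re, Complex.mul_re, Complex.ofReal_re,
      Complex.ofReal_im, Complex.mul_im, Complex.neg_re, Complex.one_re, Complex.neg_im,
      Complex.one_im]
    ring
  rw [h9]
  have : 0 < t ^ 2 * σ.re := by positivity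
  nlinarith

end Pool.Agent.H20Rob
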