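import Pool.Agent.P.MP_e3b298_an.H20Cont

set_option autoImplicit false

namespace Pool.Agent.H20Rob

open Finset PowerSeries Filter Topology MeasureTheory

lemma beta_int (B δ : ℝ) (hB : 0 < B) (hδ : 0 < δ) :
    IntervalIntegrable (fun x : ℝ => x ^ (B - 1) * (1 - x) ^ (δ - 1)) volume 0 1 ∧
      ∫ x in (0 : ℝ)..1, x ^ (B - 1) * (1 - x) ^ (δ - 1) = ProbabilityTheory.beta B δ := by
  have hc := Complex.betaIntegral_convergent (u := B) (v := δ) (by simpa) (by simpa)
  have heq : Set.EqOn (fun x : ℝ => (x : ℂ) ^ ((B : ℂ) - 1) * (1 - (x : ℂ)) ^ ((δ : ℂ) - 1))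
      (fun x : ℝ => ((x ^ (B - 1) * (1 - x) ^ (δ - 1) : ℝ) : ℂ)) (Set.uIcc 0 1) := by
    intro x hx
    rw [Set.uIcc_of_le zero_le_one] at hx
    simp only
    rw [Complex.ofReal_mul, Complex.ofReal_cpow hx.1, Complex.ofReal_cpow (sub_nonneg.2 hx.2)]
    push_cast; rfl
  have h1 := (intervalIntegrable_congr (heq.mono Set.uIoc_subset_uIcc)).1 hc
  refine ⟨⟨by simpa [IntegrableOn] using h1.1.re, by simp⟩, ?_⟩
  rw [ProbabilityTheory.beta_eq_betaIntegralReal B δ hB hδ, Complex.betaIntegral,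
    intervalIntegral.integral_congr heq, intervalIntegral.integral_ofReal, Complex.ofReal_re]

lemma beta_succ (B δ : ℝ) (hB : 0 < B) (hδ : 0 < δ) :
    ProbabilityTheory.beta (B + 1) δ = ProbabilityTheory.beta B δ * (B / (B + δ)) := by
  unfold ProbabilityTheory.beta
  rw [show B + 1 + δ = B + δ + 1 by ring, Real.Gamma_add_one hB.ne',
    Real.Gamma_add_one (by positivity)]
  have := (Real.Gamma_pos_of_pos (add_pos hB hδ)).ne'
  field_simp

lemma rc_beta (n : ℕ) (s δ : ℝ) (hs : 0 < s + n) (hδ : 0 < δ) (j : ℕ) :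
    rc n (s + δ) j * ProbabilityTheory.beta (s + n) δ =
      rc n s j * ProbabilityTheory.beta (s + n + j) δ := by
  induction j with
  | zero => simp [rc_zero]
  | succ j ih =>
    have h1 : 0 < s + n + j := by positivity
    rw [rc_succ, rc_succ, Nat.cast_succ, ← add_assoc, beta_succ _ _ h1 hδ, mul_right_comm, ih,
      show s + δ + n + j = s + n + j + δ by ring]
    field_simp

/-- the reduced hypergeometric polynomial -/
noncomputable def qq (n : ℕ) (α s ξ : ℝ) : ℝ :=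
  ∑ j ∈ range (n + 1), (-1) ^ j * Ring.choose α j * rc n s j * ξ ^ j

lemma kraw_eq (n : ℕ) (α s : ℝ) (hs : 0 < s + n) :
    kraw n α s = Ring.choose (2 * (n : ℝ) + s - 1) n * qq n α s 1 := by
  rw [kraw, qq, mul_sum]
  refine sum_congr rfl fun j hj => ?_
  rw [choose_rc n s hs j (Nat.lt_succ_iff.1 (mem_range.1 hj))]; ring

lemma beta_step (n : ℕ) (α s δ : ℝ) (hs : 0 < s + n) (hδ : 0 < δ)
    (h : ∀ ξ ∈ Set.Ioo (0 : ℝ) 1, 0 < qq n α s ξ) : 0 < qq n α (s + δ) 1 := by
  have hj : ∀ j : ℕ, 0 < s + n + j := fun j => by positivity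
  set g : ℕ → ℝ → ℝ := fun j x => (-1) ^ j * Ring.choose α j * rc n s j *
    (x ^ (s + n + j - 1) * (1 - x) ^ (δ - 1)) with hg
  have hgi : ∀ j ∈ range (n + 1), IntervalIntegrable (g j) volume 0 1 :=
    fun j _ => (beta_int _ _ (hj j) hδ).1.const_mul _
  have h1 : ∫ x in (0 : ℝ)..1, ∑ j ∈ range (n + 1), g j x =
      qq n α (s + δ) 1 * ProbabilityTheory.beta (s + n) δ := by
    rw [intervalIntegral.integral_finsetSum hgi, qq, sum_mul]
    refine sum_congr rfl fun j _ => ?_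
    simp only [hg]
    rw [intervalIntegral.integral_const_mul, (beta_int _ _ (hj j) hδ).2, one_pow, mul_one,
      mul_assoc, ← rc_beta n s δ hs hδ j]
    ring
  have h2 : 0 < ∫ x in (0 : ℝ)..1, ∑ j ∈ range (n + 1), g j x := by
    apply intervalIntegral.intervalIntegral_pos_of_pos_on _ _ zero_lt_one
    · have := IntervalIntegrable.sum (range (n + 1)) hgi
      rwa [Finset.sum_fn] at this
    · intro x hx
      have h3 : ∑ j ∈ range (n + 1), g j x =
          qq n α s x * (x ^ (s + n - 1) * (1 - x) ^ (δ - 1)) := by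
        rw [qq, sum_mul]
        refine sum_congr rfl fun j _ => ?_
        simp only [hg]
        rw [show s + n + j - 1 = (s + n - 1) + j by ring, Real.rpow_add_natCast hx.1.ne']
        ring
      rw [h3]
      exact mul_pos (h x hx) (mul_pos (Real.rpow_pos_of_pos hx.1 _)
        (Real.rpow_pos_of_pos (sub_pos.2 hx.2) _))
  rw [h1] at h2
  exact (mul_pos_iff_of_pos_right (ProbabilityTheory.beta_pos hs hδ)).1 h2

variable {ι : Type*} [Fintype ι]

theorem necessity {n : ℕ} {β α γ : ℝ} {μ : ι → ℝ} (h : Stab n β μ) (hn : 1 ≤ n)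
    (hβ : 0 < β + n) (hα : ∑ i, max (μ i) 0 = α) (hγ : ∑ i, max (-μ i) 0 = γ) (hα0 : 0 < α)
    (s : ℝ) (hs : β - γ < s) : 0 < kraw n α s := by
  have hB := h.first_bound hn hβ
  rw [hα, hγ] at hB
  have hB0 : 0 < β - γ + n := by linarith
  have hc : ∀ t : ℝ, 0 < t + n → 0 < Ring.choose (2 * (n : ℝ) + t - 1) n :=
    fun t ht => choose_pos' _ n (by linarith)
  set v : ℝ → ℂ → ι → ℂ := fun t z i => if μ i < 0 then (t : ℂ) else z with hv
  have h1 : ∀ ξ : ℝ, ((Ring.choose (2 * (n : ℝ) + β - 1) n : ℝ) : ℂ) * FF n β μ (v 1 (-ξ)) =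
      ((Ring.choose (2 * (n : ℝ) + (β - γ) - 1) n * qq n α (β - γ) ξ : ℝ) : ℂ) := by
    intro ξ
    rw [FF, ← coeff_binN_mul n β hβ, HH, merge_prod univ μ _ 1 (-ξ)
      (fun i _ hi => by simp [hv, hi]) (fun i _ hi => by simp [hv, hi.le]), hα, hγ, ← mul_assoc,
      ← bin_add, coeff_bin_bin, qq, mul_sum, Complex.ofReal_sum]
    refine sum_congr rfl fun j hj => ?_
    rw [show 2 * (n : ℝ) + β - 1 + -γ = 2 * (n : ℝ) + (β - γ) - 1 by ring,
      choose_rc n (β - γ) hB0 j (Nat.lt_succ_iff.1 (mem_range.1 hj)), neg_pow]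
    simp only [Complex.ofReal_mul, Complex.ofReal_pow, Complex.ofReal_neg, Complex.ofReal_one]
    ring
  have hq0 : qq n α (β - γ) 0 = 1 := by simp [qq, sum_range_succ', rc_zero]
  have h2 : ∀ z : ℂ, ‖z‖ < 1 → FF n β μ (v 1 z) ≠ 0 := by
    intro z hz h0
    have hcont : Continuous fun p : ℝ × ℂ => FF n β μ (v p.1 p.2) := by
      apply (differentiable_FF n β μ).continuous.comp
      apply continuous_pi
      intro i
      simp only [hv]
      split_ifs <;> fun_prop
    have h3 := hurwitz (fun t z => FF n β μ (v t z)) 1 (fun σ => hcont.continuousAt) (by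
        intro t
        apply (differentiable_FF n β μ).comp
        apply differentiable_pi.2
        intro i
        simp only [hv]
        split_ifs <;> fun_prop) z h0 ⟨-(0 : ℝ), by
        intro h4
        have h5 := h1 0
        rw [h4, mul_zero, hq0, mul_one] at h5
        exact (hc _ hB0).ne (by exact_mod_cast h5)⟩ ((1 - ‖z‖) / 2) (by linarith)
    have h4 : ∀ᶠ t : ℝ in 𝓝[<] 1, 0 < t := nhdsWithin_le_nhds (lt_mem_nhds one_pos)
    obtain ⟨t, ⟨⟨σ, hσ, h5⟩, ht0⟩, ht1⟩ :=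
      (((h3.filter_mono nhdsWithin_le_nhds).and h4).and self_mem_nhdsWithin).exists
    have ht1' : t < 1 := ht1
    refine h _ (fun i => ?_) h5
    simp only [hv]
    split_ifs
    · rwa [Complex.norm_real, Real.norm_of_nonneg ht0.le]
    · have := norm_le_norm_add_const_of_dist_le hσ
      linarith
  have h3 : ∀ ξ ∈ Set.Ioo (0 : ℝ) 1, 0 < qq n α (β - γ) ξ := by
    intro ξ hξ
    by_contra hc'
    have hcq : Continuous (qq n α (β - γ)) := by unfold qq; fun_prop
    obtain ⟨c, hc1, hc2⟩ := intermediate_value_Icc' hξ.1.le hcq.continuousOn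
      (show (0 : ℝ) ∈ Set.Icc _ _ from ⟨not_lt.1 hc', by rw [hq0]; exact zero_le_one⟩)
    have h4 := h1 c
    rw [hc2, mul_zero, Complex.ofReal_zero] at h4
    refine mul_ne_zero (by exact_mod_cast (hc β hβ).ne') (h2 _ ?_) h4
    rw [norm_neg, Complex.norm_real, Real.norm_of_nonneg hc1.1]
    exact hc1.2.trans_lt hξ.2
  have h4 := beta_step n α (β - γ) (s - (β - γ)) hB0 (by linarith) h3
  rw [add_sub_cancel] at h4
  rw [kraw_eq n α s (by linarith)]
  exact mul_pos (hc s (by linarith)) h4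

lemma choose_one_add_two (k : ℕ) : Ring.choose (1 : ℝ) (k + 1 + 1) = 0 := by
  have := Ring.choose_natCast (R := ℝ) 1 (k + 1 + 1)
  rw [Nat.cast_one, Nat.choose_eq_zero_of_lt (by omega)] at this
  simpa using this

lemma s_nonneg {n : ℕ} {α s0 : ℝ} (hn : 1 ≤ n) (hα : 1 ≤ α) (h : ∀ s, s0 < s → 0 < kraw n α s) :
    0 ≤ s0 := by
  have hn0 : (0 : ℝ) < n := by exact_mod_cast hn
  obtain ⟨m, hm⟩ : ∃ m, n = m + 1 := ⟨n - 1, by omega⟩
  have key : ∀ β : ℝ, 0 < β + n → Stab n β ![1, α - 1] → 0 ≤ β := by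
    intro β hβ hs
    by_contra hc
    push Not at hc
    apply hs ![((-(β + n) / n : ℝ) : ℂ), 0]
    · intro i
      fin_cases i
      · simp only [Fin.zero_eta, Matrix.cons_val_zero, Complex.norm_real, Real.norm_eq_abs]
        rw [abs_lt, lt_div_iff₀ hn0, div_lt_iff₀ hn0]
        constructor <;> linarith
      · simp
    · have h1 : rc n β 1 * (-(β + n) / n) = -1 := by
        rw [rc_succ, rc_zero]; simp; field_simp; ring
      have h2 := congrArg (fun x : ℝ => (x : ℂ)) h1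
      simp only [Complex.ofReal_mul, Complex.ofReal_neg, Complex.ofReal_one] at h2
      rw [FF, HH, Fin.prod_univ_two]
      simp only [Matrix.cons_val_zero, Matrix.cons_val_one, bin_zero_right, mul_one, coeff_bin]
      rw [show n + 1 = m + 1 + 1 by omega, sum_range_succ', sum_range_succ']
      simp only [choose_one_add_two, rc_zero, zero_add, Ring.choose_one_right,
        Ring.choose_zero_right, Complex.ofReal_zero, Complex.ofReal_one, zero_mul, mul_zero,
        sum_const_zero, pow_one, pow_zero, one_mul]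
      rw [h2]; ring
  have h1 := cont_method (n := n) (μ := ![1, α - 1]) (β0 := max s0 (-n))
    (by linarith [le_max_right s0 (-(n : ℝ))]) (by
      intro β hβ hs
      have hβ1 : 0 < β + n := by linarith [le_max_right s0 (-(n : ℝ))]
      have hβ2 : 0 < kraw n α β := h β ((le_max_left _ _).trans_lt hβ)
      have hβ3 := key β hβ1 hs
      apply no_torus_zero (α := α) (γ := 0) hs hn hβ1
      · rw [Fin.sum_univ_two]; simp [hα]
      · rw [Fin.sum_univ_two]; simp [hα]
      · linarith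
      · by_contra hc
        have e1 : β = 0 := by linarith
        have e2 : α = 1 := by linarith
        rw [kraw_eq n α β hβ1, e1, e2, qq, show n + 1 = m + 1 + 1 by omega, sum_range_succ',
          sum_range_succ'] at hβ2
        simp [choose_one_add_two, rc_succ, rc_zero, hn0.ne'] at hβ2
      · rw [sub_zero]; exact hβ2.ne')
  by_contra hc
  push Not at hc
  have h2 : max s0 (-(n : ℝ)) < 0 := max_lt hc (by linarith)
  have h3 := key (max s0 (-n) / 2) (by linarith [le_max_right s0 (-(n : ℝ))])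
    (h1 _ (by linarith))
  linarith

theorem sufficiency {n : ℕ} {β α γ : ℝ} {μ : ι → ℝ} (hn : 1 ≤ n) (hβ : 0 < β + n)
    (hα : ∑ i, max (μ i) 0 = α) (hγ : ∑ i, max (-μ i) 0 = γ) (hα1 : 1 ≤ α)
    (h : ∀ s, β - γ < s → 0 < kraw n α s) : Stab n β μ := by
  have h0 := s_nonneg hn hα1 h
  have h1 := cont_method (n := n) (μ := μ) hβ.le fun β' hβ' hs =>
    no_torus_zero hs hn (by linarith) hα hγ (by linarith) (by linarith)
      (h _ (by linarith)).ne'
  apply stab_closed hβ
  have h2 : ∀ᶠ β' in 𝓝[>] β, Stab n β' μ := by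
    filter_upwards [self_mem_nhdsWithin] with β' hβ' using h1 β' hβ'
  exact h2.frequently.filter_mono nhdsWithin_le_nhds

lemma stab_of_tori {n : ℕ} {β : ℝ} {μ : ι → ℝ}
    (h : ∀ R : ℝ, 0 < R → R < 1 → ∀ w : ι → ℂ, (∀ i, ‖w i‖ = R) → FF n β μ w ≠ 0) :
    Stab n β μ := by
  intro v hv h0
  have hv1 : ‖v‖ < 1 := (pi_norm_lt_iff one_pos).2 hv
  have hK : IsCompact (Metric.closedBall (0 : ι → ℂ) ‖v‖ ∩ FF n β μ ⁻¹' {0}) :=
    (isCompact_closedBall _ _).inter_right
      (isClosed_singleton.preimage (differentiable_FF n β μ).continuous)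
  obtain ⟨w, ⟨hw1, hw2⟩, hmin⟩ := hK.exists_isMinOn ⟨v, by simp, h0⟩
    (f := fun w => ‖w‖) (by fun_prop)
  rw [mem_closedBall_zero_iff] at hw1
  have hw0 : 0 < ‖w‖ := by
    rw [norm_pos_iff]
    rintro rfl
    have h1 : FF n β μ (fun _ => 0) = 0 := hw2
    rw [FF_zero] at h1
    exact one_ne_zero h1
  obtain ⟨y, hy, hy0⟩ := torus_zero _ (differentiable_FF n β μ) ‖w‖ hw0 (by
    intro y hy hy0
    have h1 : ‖y‖ < ‖w‖ := (pi_norm_lt_iff hw0).2 hy
    have h2 : ‖w‖ ≤ ‖y‖ := hmin ⟨mem_closedBall_zero_iff.2 (h1.le.trans hw1), hy0⟩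
    linarith) w (norm_le_pi_norm w) hw2
  exact h _ hw0 (hw1.trans_lt hv1) y hy hy0

theorem main (n : ℕ) (hn : 1 ≤ n) (β α γ : ℝ) (hβ : -(n : ℝ) < β) (hα : 1 ≤ α) (hγ : 0 ≤ γ) :
    List.TFAE [InT n β α γ, InTAll n β α γ, ∀ s : ℝ, β - γ < s → 0 < kraw n α s] := by
  have hβ' : 0 < β + n := by linarith
  have hfl : 0 ≤ α - (⌊α⌋₊ : ℝ) := sub_nonneg.2 (Nat.floor_le (by linarith))
  have e1 : ∑ i, max (![(⌊α⌋₊ : ℝ), α - (⌊α⌋₊ : ℝ), -γ] i) 0 = α := by
    rw [Fin.sum_univ_three]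
    simp only [Matrix.cons_val_zero, Matrix.cons_val_one, Matrix.cons_val]
    rw [max_eq_left (Nat.cast_nonneg _), max_eq_left hfl, max_eq_right (by linarith)]
    ring
  have e2 : ∑ i, max (-![(⌊α⌋₊ : ℝ), α - (⌊α⌋₊ : ℝ), -γ] i) 0 = γ := by
    rw [Fin.sum_univ_three]
    simp only [Matrix.cons_val_zero, Matrix.cons_val_one, Matrix.cons_val]
    rw [max_eq_right (neg_nonpos.2 (Nat.cast_nonneg _)), max_eq_right (neg_nonpos.2 hfl), neg_neg,
      max_eq_left hγ]
    ring
  have e3 : ∀ x y : ℂ, HH ![(⌊α⌋₊ : ℝ), α - (⌊α⌋₊ : ℝ), -γ] ![x, y, -1] =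
      bin (⌊α⌋₊ : ℝ) x * bin (α - (⌊α⌋₊ : ℝ)) y * bin (-γ) (-1) := by
    intro x y
    rw [HH, Fin.prod_univ_three]
    rfl
  tfae_have 3 → 2 := by
    intro h r μ x z h1 h2 hx hz
    have h3 := sufficiency hn hβ' h1 h2 hα h (fun i => x i * z) (fun i => by
      rw [norm_mul]
      exact (mul_le_of_le_one_left (norm_nonneg z) (hx i)).trans_lt hz)
    rwa [FF_mul] at h3
  tfae_have 2 → 1 := by
    intro h x y z hx hy hz
    rw [← e3]
    refine h 3 _ _ z e1 e2 (fun i => ?_) hz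
    fin_cases i <;> simp [hx, hy]
  tfae_have 1 → 3 := by
    intro h
    refine necessity (stab_of_tori fun R hR0 hR1 w hw => ?_) hn hβ' e1 e2 (by linarith)
    have h2 : w 2 ≠ 0 := by
      intro h3
      have := hw 2
      rw [h3, norm_zero] at this
      linarith
    have h3 := h (-(w 0 / w 2)) (-(w 1 / w 2)) (-w 2)
      (by rw [norm_neg, norm_div, hw, hw, div_self hR0.ne'])
      (by rw [norm_neg, norm_div, hw, hw, div_self hR0.ne']) (by rw [norm_neg, hw]; exact hR1)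
    rw [← e3, ← FF_mul] at h3
    convert h3 using 2
    funext i
    fin_cases i <;> simp [h2]
  tfae_finish

end Pool.Agent.H20Rob
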