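import Pool.Agent.P.MP_e3b298_an.H20Defs

set_option autoImplicit false

namespace Pool.Agent.H20Rob

open Finset PowerSeries

lemma choose_succ_mul (a : ℝ) (k : ℕ) :
    Ring.choose a (k + 1) * ((k : ℝ) + 1) = Ring.choose a k * (a - k) := by
  have h : ∀ m : ℕ, (descPochhammer ℤ m).smeval a = (descPochhammer ℝ m).eval a := by
    intro m
    induction m with
    | zero => simp
    | succ m ih =>
      rw [descPochhammer_succ_right, descPochhammer_succ_right, Polynomial.smeval_mul, ih]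
      simp [Polynomial.smeval_sub, Polynomial.smeval_natCast]
  rw [Ring.choose_eq_smul, Ring.choose_eq_smul, h, h, descPochhammer_succ_eval]
  simp only [smul_eq_mul, Nat.factorial_succ]
  have : (k.factorial : ℝ) ≠ 0 := by positivity
  push_cast
  field_simp

lemma coeff_bin (a : ℝ) (u : ℂ) (k : ℕ) :
    coeff k (bin a u) = ((Ring.choose a k : ℝ) : ℂ) * u ^ k := by
  simp [bin]

lemma bin_add (a b : ℝ) (u : ℂ) : bin (a + b) u = bin a u * bin b u := by
  ext k
  rw [coeff_mul, coeff_bin, Ring.add_choose_eq k (Commute.all a b), Complex.ofReal_sum, sum_mul]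
  refine sum_congr rfl fun p hp => ?_
  rw [coeff_bin, coeff_bin, ← mem_antidiagonal.1 hp, Complex.ofReal_mul]
  ring

lemma bin_zero (u : ℂ) : bin 0 u = 1 := by
  ext k
  rw [coeff_bin, coeff_one, Ring.choose_zero_ite]
  split_ifs with h <;> simp [h]

lemma bin_zero_right (a : ℝ) : bin a 0 = 1 := by
  ext k
  rw [coeff_bin, coeff_one]
  split_ifs with h <;> simp [h]

lemma bin_sum {ι : Type*} (s : Finset ι) (a : ι → ℝ) (u : ℂ) :
    bin (∑ i ∈ s, a i) u = ∏ i ∈ s, bin (a i) u := by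
  classical
  induction s using Finset.induction_on with
  | empty => simp [bin_zero]
  | insert i s hi ih => rw [sum_insert hi, prod_insert hi, bin_add, ih]

lemma bin_rescale (a : ℝ) (u z : ℂ) : bin a (u * z) = rescale z (bin a u) := by
  ext k
  rw [coeff_rescale, coeff_bin, coeff_bin]; ring

lemma constantCoeff_bin (a : ℝ) (u : ℂ) : constantCoeff (bin a u) = 1 := by
  rw [← coeff_zero_eq_constantCoeff_apply, coeff_bin]; simp

/-- the Euler operator -/
noncomputable def th (f : ℂ⟦X⟧) : ℂ⟦X⟧ := X * d⁄dX ℂ f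

lemma coeff_th (f : ℂ⟦X⟧) (k : ℕ) : coeff k (th f) = (k : ℂ) * coeff k f := by
  cases k with
  | zero => simp [th]
  | succ k => rw [th, coeff_succ_X_mul, coeff_derivative]; push_cast; ring

lemma th_mul (f g : ℂ⟦X⟧) : th (f * g) = th f * g + f * th g := by
  simp only [th, Derivation.leibniz, smul_eq_mul]; ring

lemma th_one : th 1 = 0 := by simp [th]

/-- `1/(1+uX)` -/
noncomputable def iv (u : ℂ) : ℂ⟦X⟧ := PowerSeries.mk fun k => (-u) ^ k

/-- `uX/(1+uX)` -/
noncomputable def ps (u : ℂ) : ℂ⟦X⟧ := C u * X * iv u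

lemma iv_mul (u : ℂ) : (1 + C u * X) * iv u = 1 := by
  ext k
  cases k with
  | zero => simp [iv]
  | succ k =>
    rw [add_mul, one_mul, map_add, mul_assoc, coeff_C_mul, coeff_succ_X_mul, coeff_one]
    simp [iv, pow_succ]; ring

lemma ps_eq (u : ℂ) : ps u = 1 - iv u := by
  have := iv_mul u
  rw [ps]; linear_combination this

lemma coeff_ps (u : ℂ) (k : ℕ) : coeff k (ps u) = (if k = 0 then 0 else (-(-1) ^ k)) * u ^ k := by
  rw [ps_eq, map_sub, coeff_one]
  split_ifs with h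
  · simp [h, iv]
  · simp [iv]; ring

lemma th_ps (u : ℂ) : th (ps u) = ps u * (1 - ps u) := by
  have h1 := iv_mul u
  have h2 : th ((1 + C u * X) * iv u) = 0 := by rw [h1, th_one]
  have h3 : th (1 + C u * X) = C u * X := by
    simp [th, Derivation.leibniz]; ring
  have h4 : th (ps u) = - th (iv u) := by
    rw [ps_eq]; simp [th]
  rw [th_mul, h3] at h2
  rw [h4]
  have h5 : 1 - ps u = iv u := by rw [ps_eq]; ring
  rw [h5, ps]
  linear_combination (-iv u) * h2 + th (iv u) * h1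

lemma th_bin (a : ℝ) (u : ℂ) : th (bin a u) = C (a : ℂ) * ps u * bin a u := by
  have h1 := iv_mul u
  have h2 : (1 + C u * X) * th (bin a u) = C (a : ℂ) * (C u * X) * bin a u := by
    ext k
    cases k with
    | zero => simp [th]
    | succ k =>
      rw [add_mul, one_mul, map_add, mul_assoc, coeff_C_mul, coeff_succ_X_mul, coeff_th, coeff_th,
        mul_assoc, mul_assoc, coeff_C_mul, coeff_C_mul, coeff_succ_X_mul, coeff_bin, coeff_bin]
      have h := congrArg (fun x : ℝ => (x : ℂ)) (choose_succ_mul a k)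
      push_cast at h ⊢
      linear_combination u ^ (k + 1) * h
  rw [ps]
  linear_combination iv u * h2 - th (bin a u) * h1

lemma ps_mul_ps (u v : ℂ) : C (v - u) * (ps u * ps v) = C v * ps u - C u * ps v := by
  have h1 := iv_mul u
  have h2 := iv_mul v
  simp only [ps, map_sub]
  linear_combination (C u * C v * X * iv u) * h2 - (C u * C v * X * iv v) * h1

lemma th_prod {κ : Type*} (s : Finset κ) (μ : κ → ℝ) (u : κ → ℂ) :
    th (∏ i ∈ s, bin (μ i) (u i)) =
      (∑ i ∈ s, C (μ i : ℂ) * ps (u i)) * ∏ i ∈ s, bin (μ i) (u i) := by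
  classical
  induction s using Finset.induction_on with
  | empty => simp [th_one]
  | insert i s hi ih => rw [sum_insert hi, prod_insert hi, th_mul, ih, th_bin]; ring

variable {κ : Type*} [Fintype κ]

/-- the product of binomial series -/
noncomputable def HH (μ : κ → ℝ) (u : κ → ℂ) : ℂ⟦X⟧ := ∏ i, bin (μ i) (u i)

/-- first moments -/
noncomputable def P1 (n : ℕ) (μ : κ → ℝ) (u : κ → ℂ) (ζ : ℂ) : ℂ := coeff n (ps ζ * HH μ u)

/-- second moments -/
noncomputable def P2 (n : ℕ) (μ : κ → ℝ) (u : κ → ℂ) (ζ ξ : ℂ) : ℂ :=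
  coeff n (ps ζ * ps ξ * HH μ u)

lemma sum_P1 (n : ℕ) (μ : κ → ℝ) (u : κ → ℂ) :
    ∑ i, (μ i : ℂ) * P1 n μ u (u i) = n * coeff n (HH μ u) := by
  rw [← coeff_th, HH, th_prod, sum_mul, map_sum]
  refine sum_congr rfl fun i _ => ?_
  rw [mul_assoc, coeff_C_mul]; rfl

lemma P1_homog (n : ℕ) (μ : κ → ℝ) (u : κ → ℂ) (ζ : ℂ) :
    n * P1 n μ u ζ = P1 n μ u ζ - P2 n μ u ζ ζ + ∑ j, (μ j : ℂ) * P2 n μ u ζ (u j) := by
  rw [P1, ← coeff_th, th_mul, th_ps, HH, th_prod, map_add, P2, HH, ← map_sub]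
  congr 1
  · congr 1; ring
  · rw [sum_mul, mul_sum, map_sum]
    refine sum_congr rfl fun i _ => ?_
    rw [P2, HH, ← coeff_C_mul]; congr 1; ring

lemma P2_epd (n : ℕ) (μ : κ → ℝ) (u : κ → ℂ) (ζ ξ : ℂ) :
    (ξ - ζ) * P2 n μ u ζ ξ = ξ * P1 n μ u ζ - ζ * P1 n μ u ξ := by
  rw [P2, P1, P1, ← coeff_C_mul, ← coeff_C_mul, ← coeff_C_mul, ← map_sub, ← mul_assoc, ps_mul_ps]
  congr 1; ring

lemma constantCoeff_HH (μ : κ → ℝ) (u : κ → ℂ) : coeff 0 (HH μ u) = 1 := by
  rw [coeff_zero_eq_constantCoeff_apply, HH, map_prod]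
  simp [constantCoeff_bin]

lemma not_all_zero_aux (μ : κ → ℝ) (u : κ → ℂ) (hu : ∀ i, u i ≠ 0) (k : ℕ)
    (hM : (k : ℝ) < ∑ i, μ i) (h : ∀ i, (μ i : ℂ) * coeff k (iv (u i) * HH μ u) = 0) : False := by
  induction k with
  | zero =>
    have h1 : ∀ i, (μ i : ℂ) = 0 := by
      intro i
      have := h i
      rw [coeff_zero_eq_constantCoeff_apply, map_mul, ← coeff_zero_eq_constantCoeff_apply,
        ← coeff_zero_eq_constantCoeff_apply, constantCoeff_HH] at this
      simpa [iv] using this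
    have h2 : ∀ i, μ i = 0 := fun i => by exact_mod_cast h1 i
    simp [h2] at hM
  | succ k ih =>
    have h1 := sum_P1 (k + 1) μ u
    have h2 : ∀ i, (μ i : ℂ) * P1 (k + 1) μ u (u i) = μ i * coeff (k + 1) (HH μ u) := by
      intro i
      rw [P1, ps_eq, sub_mul, one_mul, map_sub, mul_sub, h i, sub_zero]
    simp only [h2, ← sum_mul] at h1
    have h3 : ((∑ i, μ i : ℝ) : ℂ) - ((k + 1 : ℕ) : ℝ) ≠ 0 := by
      rw [← Complex.ofReal_sub]; exact_mod_cast (sub_pos.2 hM).ne'
    have h4 : coeff (k + 1) (HH μ u) = 0 := by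
      apply mul_left_cancel₀ h3
      push_cast at h1 ⊢
      linear_combination h1
    apply ih (by push_cast at hM; linarith)
    intro i
    have h5 := h2 i
    rw [h4, mul_zero, P1, ps, mul_assoc, mul_assoc, coeff_C_mul, coeff_succ_X_mul] at h5
    apply mul_left_cancel₀ (hu i)
    linear_combination h5

lemma not_all_zero (n : ℕ) (hn : 1 ≤ n) (μ : κ → ℝ) (u : κ → ℂ) (hu : ∀ i, u i ≠ 0)
    (hM : (n : ℝ) ≤ ∑ i, μ i) (h : ∀ i, (μ i : ℂ) * P1 n μ u (u i) = 0) : False := by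
  obtain ⟨k, rfl⟩ : ∃ k, n = k + 1 := ⟨n - 1, by omega⟩
  apply not_all_zero_aux μ u hu k (by push_cast at hM; linarith)
  intro i
  have h5 := h i
  rw [P1, ps, mul_assoc, mul_assoc, coeff_C_mul, coeff_succ_X_mul] at h5
  apply mul_left_cancel₀ (hu i)
  linear_combination h5

end Pool.Agent.H20Rob
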